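import Pool.Agent.T9h12.C6.Blow

/-! From exact to at least the relative size. -/

set_option autoImplicit false
set_option maxRecDepth 100000
set_option maxHeartbeats 4000000
open Finset

namespace Pool.Agent.T9h12.C6
open Pool.Agent.H449R2.Fl

theorem blow_bound {V : Type} [Fintype V] [DecidableEq V] {e : V → V → V → ℕ} (he : Pat e)
    (hK : ∀ a b c d, sg e a b c d ≠ 15) (A : Finset V) (P Q : ℕ)
    (hPQ : P * Fintype.card V ≤ Q * A.card) (hpos : 0 < Q * A.card)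
    {sig : ℕ → ℕ → ℕ → ℕ → ℕ → ℕ} {idf : ℕ → ℕ → ℕ → ℕ → ℕ → ℕ → ℕ → ℕ}
    {ip : ℕ → ℕ → ℕ → ℕ} {ns : ℕ → ℕ} {uf : ℕ → ℕ → ℕ} {n2 : ℕ → ℕ}
    (I : IdOk sig idf ip ns uf n2)
    {TG TP : ℕ → ℕ → ℕ → ℕ} {TQ : ℕ → ℕ → ℕ} {zz : ℕ → ℤ} {oG oP oQ W : ℤ} {tau mu : ℕ → ℤ}
    (hzz : ∀ u, zz u = (Q : ℤ) * (1 - (u : ℤ)) - P)
    (C : CertOk ns uf n2 TG TP TQ zz oG oP oQ W tau mu) (B : ℕ)
    (badc : ℕ → ℕ → ℕ → ℕ → ℕ → ℕ → ℕ → Bool)
    (hchk : ∀ h < 2136, ∀ c0 ≤ 1, ∀ c1 ≤ 1, ∀ c2 ≤ 1, ∀ c3 ≤ 1, ∀ c4 ≤ 1, ∀ c5 ≤ 1,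
      ((hasK4 (rep6 h) || badc (rep6 h) c0 c1 c2 c3 c4 c5) ||
        Nat.ble (val sig idf ip TG TP TQ (rep6 h) c0 c1 c2 c3 c4 c5) B) = true)
    (hbad : ∀ (v : Fin 6 → V × Fin (Q * A.card)) (m : ℕ),
      (∀ i j k : Fin 6, be e (Q * A.card) (v i) (v j) (v k) = pe m i.val j.val k.val) →
      badc m (bc A (P * Fintype.card V) (Q * A.card) (v 0))
        (bc A (P * Fintype.card V) (Q * A.card) (v 1))
        (bc A (P * Fintype.card V) (Q * A.card) (v 2))
        (bc A (P * Fintype.card V) (Q * A.card) (v 3))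
        (bc A (P * Fintype.card V) (Q * A.card) (v 4))
        (bc A (P * Fintype.card V) (Q * A.card) (v 5)) = false)
    (ht : 0 ≤ ∑ a, ∑ b, ∑ x, tau (st (be e (Q * A.card)) a b x
      (bc A (P * Fintype.card V) (Q * A.card) a) (bc A (P * Fintype.card V) (Q * A.card) b)
      (bc A (P * Fintype.card V) (Q * A.card) x))) :
    1440 * W * ∑ a, ∑ b, ∑ x, (e a b x : ℤ) ≤
      ((B : ℤ) - 720 * (oG + oP + oQ)) * (Fintype.card V : ℤ) ^ 3 := by
  have hz : ∑ x, zz (bc A (P * Fintype.card V) (Q * A.card) x) = 0 := by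
    simp only [hzz]
    exact bc_bal A P Q hPQ
  have h1 := cert_bound (be_pat he (Q * A.card))
    (bc_le A (P * Fintype.card V) (Q * A.card)) I C B
    (fun m c0 c1 c2 c3 c4 c5 => hasK4 m || badc m c0 c1 c2 c3 c4 c5) hchk
    (fun v m h => by
      have h2 := hasK4_false (be_sg hK (Q * A.card)) v m h
      have h3 := hbad v m h
      simp only [h2, h3, Bool.or_false]) hz ht
  rw [be_sum, Fintype.card_prod, Fintype.card_fin] at h1
  have h2 : (0 : ℤ) < ((Q * A.card : ℕ) : ℤ) ^ 3 := by positivity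
  have h3 : ((Q * A.card : ℕ) : ℤ) ^ 3 * (1440 * W * ∑ a, ∑ b, ∑ x, (e a b x : ℤ)) ≤
      ((Q * A.card : ℕ) : ℤ) ^ 3 *
        (((B : ℤ) - 720 * (oG + oP + oQ)) * (Fintype.card V : ℤ) ^ 3) := by
    rw [Nat.cast_mul (Fintype.card V)] at h1
    linarith [h1, show ((B : ℤ) - 720 * (oG + oP + oQ)) *
      ((Fintype.card V : ℤ) * ((Q * A.card : ℕ) : ℤ)) ^ 3 = ((Q * A.card : ℕ) : ℤ) ^ 3 *
        (((B : ℤ) - 720 * (oG + oP + oQ)) * (Fintype.card V : ℤ) ^ 3) by ring]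
  exact le_of_mul_le_mul_left h3 h2

/-- the codegree of a pair -/
def codeg {n : ℕ} (H : Finset (Finset (Fin n))) (p : Finset (Fin n)) : ℕ :=
  (H.filter fun s => p ⊆ s).card

theorem sum_ind_eq {n : ℕ} {H : Finset (Finset (Fin n))} (h3 : ∀ s ∈ H, s.card = 3)
    {a b : Fin n} (hab : a ≠ b) : ∑ c, ind H a b c = codeg H {a, b} := by
  unfold ind codeg
  rw [← card_filter]
  refine Finset.card_bij (fun c _ => ({a, b, c} : Finset (Fin n))) ?_ ?_ ?_
  · intro c hc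
    rw [mem_filter] at hc ⊢
    refine ⟨hc.2, ?_⟩
    intro z hz
    simp only [mem_insert, mem_singleton] at hz ⊢
    tauto
  · intro c hc c' hc' h
    rw [mem_filter] at hc hc'
    have hd := ind_distinct h3 (a := a) (b := b) (c := c) (by unfold ind; rw [if_pos hc.2])
    have hm : c ∈ ({a, b, c'} : Finset (Fin n)) := by rw [← h]; simp
    simp only [mem_insert, mem_singleton] at hm
    rcases hm with hm | hm | hm
    · exact absurd hm hd.2.1.symm
    · exact absurd hm hd.2.2.symm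
    · exact hm
  · intro s hs
    rw [mem_filter] at hs
    obtain ⟨hs, hsub⟩ := hs
    have h1 : (s \ {a, b}).card = 1 := by
      rw [card_sdiff_of_subset hsub, h3 s hs, card_pair hab]
    obtain ⟨c, hc⟩ := Finset.card_eq_one.mp h1
    have h2 : ({a, b, c} : Finset (Fin n)) = s := by
      have h4 : s = {a, b} ∪ {c} := by
        rw [← hc, union_sdiff_of_subset hsub]
      rw [h4]
      ext z; simp only [mem_insert, mem_singleton, mem_union]; tauto
    refine ⟨c, ?_, h2⟩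
    rw [mem_filter]
    exact ⟨mem_univ _, by rw [h2]; exact hs⟩

theorem sum_pairs {n : ℕ} (A : Finset (Fin n)) (F : Finset (Fin n) → ℕ) :
    ∑ p ∈ A.offDiag, F {p.1, p.2} = 2 * ∑ p ∈ A.powersetCard 2, F p := by
  rw [← Finset.sum_fiberwise_of_maps_to (t := A.powersetCard 2)
    (g := fun p : Fin n × Fin n => ({p.1, p.2} : Finset (Fin n)))]
  · rw [mul_sum]
    refine sum_congr rfl fun y hy => ?_
    rw [mem_powersetCard] at hy
    obtain ⟨u, v, huv, rfl⟩ := Finset.card_eq_two.mp hy.2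
    have hu : u ∈ A := hy.1 (by simp)
    have hv : v ∈ A := hy.1 (by simp)
    have h1 : (A.offDiag.filter
        fun p : Fin n × Fin n => ({p.1, p.2} : Finset (Fin n)) = {u, v}) = {(u, v), (v, u)} := by
      ext ⟨a, b⟩
      simp only [mem_filter, mem_offDiag, mem_insert, mem_singleton, Prod.mk.injEq]
      constructor
      · rintro ⟨⟨-, -, hab⟩, h⟩
        have ha : a ∈ ({u, v} : Finset (Fin n)) := by rw [← h]; simp
        have hb : b ∈ ({u, v} : Finset (Fin n)) := by rw [← h]; simp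
        simp only [mem_insert, mem_singleton] at ha hb
        rcases ha with rfl | rfl <;> rcases hb with rfl | rfl <;> simp_all
      · rintro (⟨rfl, rfl⟩ | ⟨rfl, rfl⟩)
        · exact ⟨⟨hu, hv, huv⟩, rfl⟩
        · exact ⟨⟨hv, hu, huv.symm⟩, pair_comm _ _⟩
    rw [h1, sum_pair (by simp [huv])]
    rw [pair_comm v u]
    ring
  · intro p hp
    rw [mem_offDiag] at hp
    rw [mem_powersetCard]
    refine ⟨?_, card_pair hp.2.2⟩
    intro z hz
    simp only [mem_insert, mem_singleton] at hz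
    rcases hz with rfl | rfl
    exacts [hp.1, hp.2.1]

/-- the sum of the codegrees of the pairs inside `A` -/
theorem sum_codeg {n : ℕ} {H : Finset (Finset (Fin n))} (h3 : ∀ s ∈ H, s.card = 3)
    (A : Finset (Fin n)) : ∑ a ∈ A, ∑ b ∈ A, ∑ x, ind H a b x =
      2 * ∑ p ∈ A.powersetCard 2, codeg H p := by
  rw [← sum_pairs A (codeg H), ← Finset.sum_product' (f := fun a b => ∑ x, ind H a b x),
    ← Finset.sum_subset (s₁ := A.offDiag)]
  · refine sum_congr rfl fun p hp => ?_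
    rw [mem_offDiag] at hp
    rw [sum_ind_eq h3 hp.2.2]
  · intro p hp
    rw [mem_offDiag] at hp
    exact mem_product.2 ⟨hp.1, hp.2.1⟩
  · rintro ⟨a, b⟩ hab hp
    rw [mem_product] at hab
    rw [mem_offDiag] at hp
    have hab' : a = b := by
      by_contra h
      exact hp ⟨hab.1, hab.2, h⟩
    subst hab'
    have : ∀ c, ind H a a c = 0 := fun c => (ind_pat h3).dg a c
    simp [this]

/-- from `6 |H| ≤ c n ^ 3` with `c < 5/9` to `5/9` times the number of triples -/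
theorem to_choose (n : ℕ) (N : ℕ) (m : ℝ) (c : ℝ) (hc0 : 0 ≤ c) (hn : N ≤ n) (hN : 3 ≤ N)
    (hcN : 9 * c * N ≤ 5 * (N - 3)) (h : 6 * m ≤ c * (n : ℝ) ^ 3) :
    m ≤ 5 / 9 * (n.choose 3 : ℝ) := by
  have hN' : (N : ℝ) ≤ n := by exact_mod_cast hn
  have hN3 : (3 : ℝ) ≤ N := by exact_mod_cast hN
  have hch : ((n.choose 3 : ℕ) : ℝ) = (n : ℝ) * (n - 1) * (n - 2) / 6 := by
    have h1 : n.choose 3 * 6 = n * (n - 1) * (n - 2) := by
      have := Nat.descFactorial_eq_factorial_mul_choose n 3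
      simp only [Nat.descFactorial, Nat.factorial] at this
      have e : (n - 0) = n := by omega
      rw [e] at this
      nlinarith
    have h2 : ((n.choose 3 * 6 : ℕ) : ℝ) = ((n * (n - 1) * (n - 2) : ℕ) : ℝ) := by rw [h1]
    push_cast [show 1 ≤ n by omega, show 2 ≤ n by omega] at h2
    linarith
  rw [hch]
  have h9c : 9 * c ≤ 5 := by
    by_contra hh
    push Not at hh
    nlinarith
  have h5 : 9 * c * n ≤ 5 * (n - 3) := by nlinarith
  have h6 : (n : ℝ) ^ 3 * (9 * c) ≤ 5 * ((n : ℝ) * (n - 1) * (n - 2)) := by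
    have h7 : (0 : ℝ) ≤ (n : ℝ) ^ 2 := by positivity
    have h8 := mul_le_mul_of_nonneg_left h5 h7
    nlinarith
  nlinarith

end Pool.Agent.T9h12.C6
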