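import Pool.Agent.T9h12.C6.Eval
import Pool.Agent.H449R2.Fl.Copies

/-! Blow-ups with a set of vertices of an exact relative size. -/

set_option autoImplicit false
set_option maxRecDepth 100000
set_option maxHeartbeats 4000000
open Finset

namespace Pool.Agent.T9h12.C6
open Pool.Agent.H449R2.Fl

section
variable {V : Type} [DecidableEq V]

/-- the blow-up of a 3-graph -/
def be (e : V → V → V → ℕ) (t : ℕ) (x y z : V × Fin t) : ℕ := e x.1 y.1 z.1

/-- the class of colour zero: the first `s` copies of the vertices of `A` -/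
def bc (A : Finset V) (s t : ℕ) (x : V × Fin t) : ℕ := if x.1 ∈ A ∧ x.2.val < s then 0 else 1

theorem be_pat {e : V → V → V → ℕ} (he : Pat e) (t : ℕ) : Pat (be e t) :=
  ⟨fun _ _ _ => he.le1 _ _ _, fun _ _ _ => he.s12 _ _ _, fun _ _ _ => he.s23 _ _ _,
    fun _ _ => he.dg _ _⟩

theorem bc_le (A : Finset V) (s t : ℕ) (x : V × Fin t) : bc A s t x ≤ 1 := by
  unfold bc; split_ifs <;> omega

theorem be_sg {e : V → V → V → ℕ} (hK : ∀ a b c d, sg e a b c d ≠ 15) (t : ℕ)
    (a b c d : V × Fin t) : sg (be e t) a b c d ≠ 15 := hK a.1 b.1 c.1 d.1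

variable [Fintype V]

/-- indicator of colour zero -/
theorem bc_sum (A : Finset V) (s t : ℕ) (hs : s ≤ t) :
    ∑ x : V × Fin t, (1 - (bc A s t x : ℤ)) = (A.card : ℤ) * s := by
  rw [Fintype.sum_prod_type]
  have h1 : ∀ x : V, ∑ i : Fin t, (1 - (bc A s t (x, i) : ℤ)) = if x ∈ A then (s : ℤ) else 0 := by
    intro x
    by_cases hx : x ∈ A
    · have h2 : ∀ i : Fin t, (1 - (bc A s t (x, i) : ℤ)) = if i.val < s then 1 else 0 := by
        intro i
        unfold bc
        by_cases hi : i.val < s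
        · rw [if_pos ⟨hx, hi⟩, if_pos hi]; rfl
        · rw [if_neg (fun h => hi h.2), if_neg hi]; rfl
      rw [sum_congr rfl fun i _ => h2 i, if_pos hx, sum_boole, Fin.card_filter_val_lt,
        min_eq_right hs]
    · have h2 : ∀ i : Fin t, (1 - (bc A s t (x, i) : ℤ)) = 0 := by
        intro i
        unfold bc
        rw [if_neg (fun h => hx h.1)]; rfl
      rw [sum_congr rfl fun i _ => h2 i, if_neg hx, sum_const_zero]
  rw [sum_congr rfl fun x _ => h1 x, sum_ite_mem, univ_inter, sum_const, nsmul_eq_mul]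

/-- the balance of the colours in the blow-up -/
theorem bc_bal (A : Finset V) (P Q : ℕ) (h : P * Fintype.card V ≤ Q * A.card) :
    ∑ x : V × Fin (Q * A.card), ((Q : ℤ) *
      (1 - (bc A (P * Fintype.card V) (Q * A.card) x : ℤ)) - P) = 0 := by
  rw [sum_sub_distrib, ← mul_sum, bc_sum A _ _ h, sum_const, card_univ, Fintype.card_prod,
    Fintype.card_fin, nsmul_eq_mul]
  push_cast
  ring

theorem be_sum (e : V → V → V → ℕ) (t : ℕ) :
    ∑ x, ∑ y, ∑ z, (be e t x y z : ℤ) = (t : ℤ) ^ 3 * ∑ x, ∑ y, ∑ z, (e x y z : ℤ) := by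
  simp only [Fintype.sum_prod_type, be, sum_const, card_univ, Fintype.card_fin, nsmul_eq_mul,
    ← mul_sum]
  ring

end

/-- the sum of the slack of the codegree condition: symmetrisation -/
theorem slack_sum {X : Type} [Fintype X] {e : X → X → X → ℕ} (he : Pat e) (c : X → ℕ)
    (hc : ∀ x, c x ≤ 1) (p q : ℤ) (tau : ℕ → ℤ)
    (h0 : tau 0 = 3 * p) (h1 : tau 1 = 3 * (p - q)) (h2 : tau 2 = p) (h3 : tau 3 = p - q)
    (h4 : tau 4 = 0) (h5 : tau 5 = 0) (h6 : tau 6 = 0) (h7 : tau 7 = 0) :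
    ∑ a, ∑ b, ∑ x, tau (st e a b x (c a) (c b) (c x)) =
      3 * ∑ a, ∑ b, ∑ x, (1 - (c a : ℤ)) * (1 - (c b : ℤ)) * (p - q * (e a b x : ℤ)) := by
  have key : ∀ a b x, tau (st e a b x (c a) (c b) (c x)) =
      (1 - (c a : ℤ)) * (1 - (c b : ℤ)) * (p - q * (e a b x : ℤ)) +
      (1 - (c a : ℤ)) * (1 - (c x : ℤ)) * (p - q * (e a x b : ℤ)) +
      (1 - (c b : ℤ)) * (1 - (c x : ℤ)) * (p - q * (e b x a : ℤ)) := by
    intro a b x
    have e1 : e a x b = e a b x := (he.s23 _ _ _).symm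
    have e2 : e b x a = e a b x := by rw [he.s23 b x a, he.s12 b a x]
    rw [e1, e2]
    have l1 := he.le1 a b x
    have l2 := hc a
    have l3 := hc b
    have l4 := hc x
    unfold st
    simp only [Nat.add_eq, Nat.mul_eq]
    interval_cases he1 : e a b x <;> interval_cases ha : c a <;> interval_cases hb : c b <;>
      interval_cases hx : c x <;> simp [h0, h1, h2, h3, h4, h5, h6, h7] <;> ring
  simp only [key, sum_add_distrib]
  have s1 : ∑ a, ∑ b, ∑ x, (1 - (c a : ℤ)) * (1 - (c x : ℤ)) * (p - q * (e a x b : ℤ)) =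
      ∑ a, ∑ b, ∑ x, (1 - (c a : ℤ)) * (1 - (c b : ℤ)) * (p - q * (e a b x : ℤ)) :=
    sum_congr rfl fun a _ => sum_comm
  have s2 : ∑ a, ∑ b, ∑ x, (1 - (c b : ℤ)) * (1 - (c x : ℤ)) * (p - q * (e b x a : ℤ)) =
      ∑ a, ∑ b, ∑ x, (1 - (c a : ℤ)) * (1 - (c b : ℤ)) * (p - q * (e a b x : ℤ)) := by
    rw [sum_comm]
    exact sum_congr rfl fun b _ => sum_comm
  rw [s1, s2]
  ring

theorem slack_blow {V : Type} [DecidableEq V] [Fintype V] (e : V → V → V → ℕ) (A : Finset V)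
    (s t : ℕ) (hs : s ≤ t) (p q : ℤ) :
    ∑ a : V × Fin t, ∑ b : V × Fin t, ∑ x : V × Fin t,
      (1 - (bc A s t a : ℤ)) * (1 - (bc A s t b : ℤ)) * (p - q * (be e t a b x : ℤ)) =
    (s : ℤ) ^ 2 * t * (p * Fintype.card V * (A.card : ℤ) ^ 2 -
      q * ∑ a ∈ A, ∑ b ∈ A, ∑ x, (e a b x : ℤ)) := by
  have h1 : ∀ a b : V × Fin t, ∑ x : V × Fin t,
      (1 - (bc A s t a : ℤ)) * (1 - (bc A s t b : ℤ)) * (p - q * (be e t a b x : ℤ)) =
      (1 - (bc A s t a : ℤ)) * ((1 - (bc A s t b : ℤ)) *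
        (t * (p * Fintype.card V - q * ∑ x, (e a.1 b.1 x : ℤ)))) := by
    intro a b
    rw [← mul_sum, sum_sub_distrib, sum_const, card_univ, Fintype.card_prod, Fintype.card_fin,
      ← mul_sum, Fintype.sum_prod_type]
    simp only [be, sum_const, card_univ, Fintype.card_fin, nsmul_eq_mul, ← mul_sum]
    push_cast
    ring
  have hA : ∀ F : V → ℤ, ∑ a : V × Fin t, (1 - (bc A s t a : ℤ)) * F a.1 = s * ∑ a ∈ A, F a := by
    intro F
    rw [Fintype.sum_prod_type]
    have h2 : ∀ x : V, ∑ i : Fin t, (1 - (bc A s t (x, i) : ℤ)) * F x =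
        if x ∈ A then (s : ℤ) * F x else 0 := by
      intro x
      rw [← sum_mul]
      by_cases hx : x ∈ A
      · have h2 : ∀ i : Fin t, (1 - (bc A s t (x, i) : ℤ)) = if i.val < s then 1 else 0 := by
          intro i
          unfold bc
          by_cases hi : i.val < s
          · rw [if_pos ⟨hx, hi⟩, if_pos hi]; rfl
          · rw [if_neg (fun h => hi h.2), if_neg hi]; rfl
        rw [sum_congr rfl fun i _ => h2 i, if_pos hx, sum_boole, Fin.card_filter_val_lt,
          min_eq_right hs]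
      · have h2 : ∀ i : Fin t, (1 - (bc A s t (x, i) : ℤ)) = 0 := by
          intro i
          unfold bc
          rw [if_neg (fun h => hx h.1)]; rfl
        rw [sum_congr rfl fun i _ => h2 i, if_neg hx, sum_const_zero, zero_mul]
    rw [sum_congr rfl fun x _ => h2 x, sum_ite_mem, univ_inter, ← mul_sum]
  simp only [h1, ← mul_sum]
  have h3 : ∀ a : V × Fin t, ∑ b : V × Fin t, (1 - (bc A s t b : ℤ)) *
      ((t : ℤ) * (p * Fintype.card V - q * ∑ x, (e a.1 b.1 x : ℤ))) =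
      s * ∑ b ∈ A, (t : ℤ) * (p * Fintype.card V - q * ∑ x, (e a.1 b x : ℤ)) := fun a =>
    hA fun b => (t : ℤ) * (p * Fintype.card V - q * ∑ x, (e a.1 b x : ℤ))
  simp only [h3]
  rw [hA fun a => (s : ℤ) * ∑ b ∈ A, (t : ℤ) * (p * Fintype.card V - q * ∑ x, (e a b x : ℤ))]
  simp only [← mul_sum, sum_sub_distrib, sum_const, nsmul_eq_mul]
  ring

end Pool.Agent.T9h12.C6
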