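import Pool.Agent.T9h12.C6.Sel
import Pool.Agent.H449R2.Fl.CertAux

/-! Two-coloured order-6 flag computations: the local functionals. -/

set_option autoImplicit false
open Finset

namespace Pool.Agent.T9h12.C6
open Pool.Agent.H449R2.Fl

/-- selector -/
def B2 {α : Type} (b : ℕ) (x y : α) : α := Nat.rec x (fun _ _ => y) b

/-- conjunction over the values 0 and 1 -/
def all2 (f : ℕ → Bool) : Bool := and (f 0) (f 1)

theorem all2_true {f : ℕ → Bool} (h : all2 f = true) : ∀ b ≤ 1, f b = true := by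
  intro b hb
  rw [all2, Bool.and_eq_true] at h
  interval_cases b
  exacts [h.1, h.2]

section
variable {V : Type} (e : V → V → V → ℕ) (c : V → ℕ)

/-- code of a flag over an ordered pair: the edges among the four vertices and two colours -/
def cp (a b x y : V) (cx cy : ℕ) : ℕ :=
  Nat.add (e a b x) (Nat.mul 2 (Nat.add (e a b y) (Nat.mul 2 (Nat.add (e a x y)
    (Nat.mul 2 (Nat.add (e b x y) (Nat.mul 2 (Nat.add cx (Nat.mul 2 cy)))))))))

/-- code of a coloured triple -/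
def st (a b x : V) (ca cb cx : ℕ) : ℕ :=
  Nat.add (e a b x) (Nat.mul 2 (Nat.add ca (Nat.add cb cx)))

variable (sig : ℕ → ℕ → ℕ → ℕ → ℕ → ℕ) (idf : ℕ → ℕ → ℕ → ℕ → ℕ → ℕ → ℕ → ℕ)
  (i2 : ℕ → ℕ → ℕ → ℕ) (TG TP : ℕ → ℕ → ℕ → ℕ) (TQ : ℕ → ℕ → ℕ)

/-- the functional of the four-vertex types, with explicit colours -/
def vG (x y a b c d : V) (cx cy ca cb cc cd : ℕ) : ℕ :=
  TG (sig ca cb cc cd (sg e a b c d)) (idf ca cb cc cd cx (sg e a b c d) (ta e a b c d x))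
    (idf ca cb cc cd cy (sg e a b c d) (ta e a b c d y))

/-- the functional of the two-vertex types, with explicit colours -/
def vP (a b x y z w : V) (ca cb cx cy cz cw : ℕ) : ℕ :=
  TP (Nat.add ca cb) (i2 ca cb (cp e a b x y cx cy)) (i2 ca cb (cp e a b z w cz cw))

/-- the functional of the empty type, with explicit colours -/
def vQ (a b d x y z : V) (ca cb cd cx cy cz : ℕ) : ℕ :=
  TQ (st e a b d ca cb cd) (st e x y z cx cy cz)

def phG (x y a b c' d : V) : ℕ := vG e sig idf TG x y a b c' d (c x) (c y) (c a) (c b) (c c') (c d)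
def phP (a b x y z w : V) : ℕ := vP e i2 TP a b x y z w (c a) (c b) (c x) (c y) (c z) (c w)
def phQ (a b d x y z : V) : ℕ := vQ e TQ a b d x y z (c a) (c b) (c d) (c x) (c y) (c z)

/-- the local functional -/
def phi6 (x0 x1 x2 x3 x4 x5 : V) : ℕ :=
  phG e c sig idf TG x0 x1 x2 x3 x4 x5 + phP e c i2 TP x0 x1 x2 x3 x4 x5 +
    phQ e c TQ x0 x1 x2 x3 x4 x5

end

section
variable {α : Type}

def t15 (g : α → α → α → α → α → α → ℕ → ℕ → ℕ → ℕ → ℕ → ℕ → ℕ) (a b c d x y : α)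
    (ca cb cc cd cx cy : ℕ) : ℕ :=
  Nat.add (g x y a b c d cx cy ca cb cc cd) (Nat.add (g d y a b c x cd cy ca cb cc cx)
  (Nat.add (g d x a b c y cd cx ca cb cc cy) (Nat.add (g c y a b d x cc cy ca cb cd cx)
  (Nat.add (g c x a b d y cc cx ca cb cd cy) (Nat.add (g c d a b x y cc cd ca cb cx cy)
  (Nat.add (g b y a c d x cb cy ca cc cd cx) (Nat.add (g b x a c d y cb cx ca cc cd cy)
  (Nat.add (g b d a c x y cb cd ca cc cx cy) (Nat.add (g b c a d x y cb cc ca cd cx cy)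
  (Nat.add (g a y b c d x ca cy cb cc cd cx) (Nat.add (g a x b c d y ca cx cb cc cd cy)
  (Nat.add (g a d b c x y ca cd cb cc cx cy) (Nat.add (g a c b d x y ca cc cb cd cx cy)
  (g a b c d x y ca cb cc cd cx cy))))))))))))))

def t3 (g : α → α → α → α → ℕ → ℕ → ℕ → ℕ → ℕ) (x y z w : α) (cx cy cz cw : ℕ) : ℕ :=
  Nat.add (g x y z w cx cy cz cw) (Nat.add (g x z y w cx cz cy cw) (g x w y z cx cw cy cz))

def t45 (g : α → α → α → α → α → α → ℕ → ℕ → ℕ → ℕ → ℕ → ℕ → ℕ) (a b c d x y : α)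
    (ca cb cc cd cx cy : ℕ) : ℕ :=
  Nat.add (t3 (fun p q r s cp cq cr cs => g x y p q r s cx cy cp cq cr cs) a b c d ca cb cc cd)
  (Nat.add (t3 (fun p q r s cp cq cr cs => g d y p q r s cd cy cp cq cr cs) a b c x ca cb cc cx)
  (Nat.add (t3 (fun p q r s cp cq cr cs => g d x p q r s cd cx cp cq cr cs) a b c y ca cb cc cy)
  (Nat.add (t3 (fun p q r s cp cq cr cs => g c y p q r s cc cy cp cq cr cs) a b d x ca cb cd cx)
  (Nat.add (t3 (fun p q r s cp cq cr cs => g c x p q r s cc cx cp cq cr cs) a b d y ca cb cd cy)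
  (Nat.add (t3 (fun p q r s cp cq cr cs => g c d p q r s cc cd cp cq cr cs) a b x y ca cb cx cy)
  (Nat.add (t3 (fun p q r s cp cq cr cs => g b y p q r s cb cy cp cq cr cs) a c d x ca cc cd cx)
  (Nat.add (t3 (fun p q r s cp cq cr cs => g b x p q r s cb cx cp cq cr cs) a c d y ca cc cd cy)
  (Nat.add (t3 (fun p q r s cp cq cr cs => g b d p q r s cb cd cp cq cr cs) a c x y ca cc cx cy)
  (Nat.add (t3 (fun p q r s cp cq cr cs => g b c p q r s cb cc cp cq cr cs) a d x y ca cd cx cy)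
  (Nat.add (t3 (fun p q r s cp cq cr cs => g a y p q r s ca cy cp cq cr cs) b c d x cb cc cd cx)
  (Nat.add (t3 (fun p q r s cp cq cr cs => g a x p q r s ca cx cp cq cr cs) b c d y cb cc cd cy)
  (Nat.add (t3 (fun p q r s cp cq cr cs => g a d p q r s ca cd cp cq cr cs) b c x y cb cc cx cy)
  (Nat.add (t3 (fun p q r s cp cq cr cs => g a c p q r s ca cc cp cq cr cs) b d x y cb cd cx cy)
  (t3 (fun p q r s cp cq cr cs => g a b p q r s ca cb cp cq cr cs) c d x y cc cd cx cy))))))))))))))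

def t10 (g : α → α → α → α → α → α → ℕ → ℕ → ℕ → ℕ → ℕ → ℕ → ℕ) (a b c d x y : α)
    (ca cb cc cd cx cy : ℕ) : ℕ :=
  Nat.add (g a b c d x y ca cb cc cd cx cy) (Nat.add (g a b d c x y ca cb cd cc cx cy)
  (Nat.add (g a b x c d y ca cb cx cc cd cy) (Nat.add (g a b y c d x ca cb cy cc cd cx)
  (Nat.add (g a c d b x y ca cc cd cb cx cy) (Nat.add (g a c x b d y ca cc cx cb cd cy)
  (Nat.add (g a c y b d x ca cc cy cb cd cx) (Nat.add (g a d x b c y ca cd cx cb cc cy)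
  (Nat.add (g a d y b c x ca cd cy cb cc cx) (g a x y b c d ca cx cy cb cc cd)))))))))

end

variable (sig : ℕ → ℕ → ℕ → ℕ → ℕ → ℕ) (idf : ℕ → ℕ → ℕ → ℕ → ℕ → ℕ → ℕ → ℕ)
  (i2 : ℕ → ℕ → ℕ → ℕ) (TG TP : ℕ → ℕ → ℕ → ℕ) (TQ : ℕ → ℕ → ℕ)

/-- the value at a coloured 3-graph on six vertices -/
def val (m c0 c1 c2 c3 c4 c5 : ℕ) : ℕ :=
  Nat.add (Nat.mul 48 (t15 (vG (pe m) sig idf TG) 0 1 2 3 4 5 c0 c1 c2 c3 c4 c5))
    (Nat.add (Nat.mul 16 (t45 (vP (pe m) i2 TP) 0 1 2 3 4 5 c0 c1 c2 c3 c4 c5))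
      (Nat.mul 72 (t10 (vQ (pe m) TQ) 0 1 2 3 4 5 c0 c1 c2 c3 c4 c5)))

end Pool.Agent.T9h12.C6
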