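import Pool.Agent.T9h12.C6.Ids

/-! Kernel-checkable form of the Gram representations. -/

set_option autoImplicit false
set_option maxRecDepth 100000
set_option maxHeartbeats 4000000
open Finset

namespace Pool.Agent.T9h12.C6
open Pool.Agent.H449R2.Fl

def z01 (Q u : ℕ) : ℕ := Nat.mul Q (Nat.sub 1 u)

def rs (uf : ℕ → ℕ → ℕ) (lf : ℕ → ℕ → ℕ → ℕ) (lh : ℕ → ℕ → ℕ) (K O OH P Q s i : ℕ) : ℕ :=
  Nat.add (Nat.mul O (nsum K (lf s i))) (Nat.add (Nat.mul P (lh s i))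
    (Nat.mul OH (z01 Q (uf s i))))

/-- check of one row of the table of a type on four vertices -/
def ckG (ns : ℕ → ℕ) (uf : ℕ → ℕ → ℕ) (TG lf : ℕ → ℕ → ℕ → ℕ) (lh : ℕ → ℕ → ℕ)
    (K O OH P Q oG s i : ℕ) : Bool :=
  nall (ns s) fun j => Nat.beq
    (Nat.add (TG s i j) (Nat.add (rs uf lf lh K O OH P Q s i) (rs uf lf lh K O OH P Q s j)))
    (Nat.add (Nat.add (nsum K fun k => Nat.mul (lf s i k) (lf s j k))
      (Nat.add oG (Nat.add (Nat.mul K (Nat.mul O O)) (Nat.mul 2 (Nat.mul P OH)))))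
      (Nat.add (Nat.mul (z01 Q (uf s i)) (lh s j)) (Nat.mul (z01 Q (uf s j)) (lh s i))))

theorem expand1 (K : ℕ) (u v : ℕ → ℕ) (O : ℤ) :
    ∑ k ∈ range K, (((u k : ℤ) - O) * ((v k : ℤ) - O)) =
      ∑ k ∈ range K, ((u k : ℤ) * (v k : ℤ))
        - O * (∑ k ∈ range K, (u k : ℤ) + ∑ k ∈ range K, (v k : ℤ)) + K * O ^ 2 := by
  rw [mul_add, mul_sum, mul_sum, ← sum_add_distrib, ← sum_sub_distrib]
  have h : (K : ℤ) * O ^ 2 = ∑ _k ∈ range K, O ^ 2 := by simp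
  rw [h, ← sum_add_distrib]
  exact sum_congr rfl fun k _ => by ring

theorem ckG_true {ns : ℕ → ℕ} {uf : ℕ → ℕ → ℕ} {TG lf : ℕ → ℕ → ℕ → ℕ} {lh : ℕ → ℕ → ℕ}
    {K O OH P Q oG s : ℕ} (h : nall (ns s) (ckG ns uf TG lf lh K O OH P Q oG s) = true)
    (hu : ∀ s i, uf s i ≤ 1) {i j : ℕ} (hi : i < ns s) (hj : j < ns s) :
    (TG s i j : ℤ) = (oG : ℤ) + ∑ k ∈ range K, (((lf s i k : ℤ) - O) * ((lf s j k : ℤ) - O)) +
      ((((Q : ℤ) * (1 - (uf s i : ℤ)) - P) * ((lh s j : ℤ) - OH)) +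
        (((Q : ℤ) * (1 - (uf s j : ℤ)) - P) * ((lh s i : ℤ) - OH))) := by
  have h1 := nall_true (nall_true h i hi) j hj
  have h2 := Nat.eq_of_beq_eq_true h1
  simp only [rs, z01, nsum_eq, Nat.add_eq, Nat.mul_eq, Nat.sub_eq] at h2
  have h3 := congrArg (fun n : ℕ => (n : ℤ)) h2
  push_cast [hu s i, hu s j] at h3
  rw [expand1]
  linarith

/-- check of one row of the table of a type on two vertices -/
def ckPG (n2 : ℕ → ℕ) (TP mf : ℕ → ℕ → ℕ → ℕ) (K O oP r i : ℕ) : Bool :=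
  nall (n2 r) fun j => Nat.beq
    (Nat.add (TP r i j) (Nat.mul O (Nat.add (nsum K (mf r i)) (nsum K (mf r j)))))
    (Nat.add (nsum K fun k => Nat.mul (mf r i k) (mf r j k))
      (Nat.add oP (Nat.mul K (Nat.mul O O))))

theorem ckPG_true {n2 : ℕ → ℕ} {TP mf : ℕ → ℕ → ℕ → ℕ} {K O oP r : ℕ}
    (h : nall (n2 r) (ckPG n2 TP mf K O oP r) = true) {i j : ℕ} (hi : i < n2 r) (hj : j < n2 r) :
    (TP r i j : ℤ) = (oP : ℤ) + ∑ k ∈ range K, (((mf r i k : ℤ) - O) * ((mf r j k : ℤ) - O)) := by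
  have h1 := nall_true (nall_true h i hi) j hj
  have h2 := Nat.eq_of_beq_eq_true h1
  simp only [nsum_eq, Nat.add_eq, Nat.mul_eq] at h2
  have h3 := congrArg (fun n : ℕ => (n : ℤ)) h2
  push_cast at h3
  rw [expand1]
  linarith

theorem idOk_uf (s i : ℕ) : uf s i ≤ 1 := by
  unfold uf
  exact Nat.and_le_right

end Pool.Agent.T9h12.C6
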