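import Pool.Agent.T9h12.C6.Ids

/-! Checks of the tables of flag classes. -/

set_option autoImplicit false
set_option maxRecDepth 100000
set_option maxHeartbeats 4000000

namespace Pool.Agent.T9h12.C6
open Pool.Agent.H449R2.Fl

/-- conditions at four vertices -/
def ckS4 (a b c d e1 e2 e3 e4 : ℕ) : Bool :=
  and (Nat.beq (sig b a c d (b4 e1 e2 e4 e3)) (sig a b c d (b4 e1 e2 e3 e4)))
  (and (Nat.beq (sig a c b d (b4 e1 e3 e2 e4)) (sig a b c d (b4 e1 e2 e3 e4)))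
  (and (Nat.beq (sig a b d c (b4 e2 e1 e3 e4)) (sig a b c d (b4 e1 e2 e3 e4)))
  (Nat.ble (sig a b c d (b4 e1 e2 e3 e4)) 30)))

theorem ckS4_all : (all2 fun a => all2 fun b => all2 fun c => all2 fun d => all2 fun e1 =>
    all2 fun e2 => all2 fun e3 => all2 fun e4 => ckS4 a b c d e1 e2 e3 e4) = true := by
  decide +kernel

/-- conditions at flags over four vertices -/
def ckI (a b c d x e1 e2 e3 e4 t1 t2 t3 t4 t5 t6 : ℕ) : Bool :=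
  and (Nat.beq (idf b a c d x (b4 e1 e2 e4 e3) (b6 t1 t4 t5 t2 t3 t6))
    (idf a b c d x (b4 e1 e2 e3 e4) (b6 t1 t2 t3 t4 t5 t6)))
  (and (Nat.beq (idf a c b d x (b4 e1 e3 e2 e4) (b6 t2 t1 t3 t4 t6 t5))
    (idf a b c d x (b4 e1 e2 e3 e4) (b6 t1 t2 t3 t4 t5 t6)))
  (and (Nat.beq (idf a b d c x (b4 e2 e1 e3 e4) (b6 t1 t3 t2 t5 t4 t6))
    (idf a b c d x (b4 e1 e2 e3 e4) (b6 t1 t2 t3 t4 t5 t6)))
  (and (Nat.ble (Nat.add (idf a b c d x (b4 e1 e2 e3 e4) (b6 t1 t2 t3 t4 t5 t6)) 1)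
    (ns (sig a b c d (b4 e1 e2 e3 e4))))
  (Nat.beq (uf (sig a b c d (b4 e1 e2 e3 e4))
    (idf a b c d x (b4 e1 e2 e3 e4) (b6 t1 t2 t3 t4 t5 t6))) x))))

def ckI10 (a b c d x : ℕ) : Bool :=
  all2 fun e1 => all2 fun e2 => all2 fun e3 => all2 fun e4 => all2 fun t1 => all2 fun t2 =>
    all2 fun t3 => all2 fun t4 => all2 fun t5 => all2 fun t6 => ckI a b c d x e1 e2 e3 e4
      t1 t2 t3 t4 t5 t6

theorem ckI_00 : (all2 fun c => all2 fun d => all2 fun x => ckI10 0 0 c d x) = true := by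
  decide +kernel
theorem ckI_01 : (all2 fun c => all2 fun d => all2 fun x => ckI10 0 1 c d x) = true := by
  decide +kernel
theorem ckI_10 : (all2 fun c => all2 fun d => all2 fun x => ckI10 1 0 c d x) = true := by
  decide +kernel
theorem ckI_11 : (all2 fun c => all2 fun d => all2 fun x => ckI10 1 1 c d x) = true := by
  decide +kernel

theorem ckI_all : ∀ a ≤ 1, ∀ b ≤ 1, ∀ c ≤ 1, ∀ d ≤ 1, ∀ x ≤ 1, ckI10 a b c d x = true := by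
  intro a ha b hb c hc d hd x hx
  have h : (all2 fun c => all2 fun d => all2 fun x => ckI10 a b c d x) = true := by
    interval_cases a <;> interval_cases b
    exacts [ckI_00, ckI_01, ckI_10, ckI_11]
  exact all2_true (all2_true (all2_true h c hc) d hd) x hx

/-- conditions at flags over two vertices -/
def ckP (a b x y e1 e2 e3 e4 : ℕ) : Bool :=
  and (Nat.beq (ip b a (b6 e1 e2 e4 e3 x y)) (ip a b (b6 e1 e2 e3 e4 x y)))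
  (and (Nat.beq (ip a b (b6 e2 e1 e3 e4 y x)) (ip a b (b6 e1 e2 e3 e4 x y)))
  (Nat.ble (Nat.add (ip a b (b6 e1 e2 e3 e4 x y)) 1) (n2 (Nat.add a b))))

theorem ckP_all : (all2 fun a => all2 fun b => all2 fun x => all2 fun y => all2 fun e1 =>
    all2 fun e2 => all2 fun e3 => all2 fun e4 => ckP a b x y e1 e2 e3 e4) = true := by
  decide +kernel

theorem idOk : IdOk sig idf ip ns uf n2 := by
  have hS : ∀ a ≤ 1, ∀ b ≤ 1, ∀ c ≤ 1, ∀ d ≤ 1, ∀ e1 ≤ 1, ∀ e2 ≤ 1, ∀ e3 ≤ 1, ∀ e4 ≤ 1,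
      ckS4 a b c d e1 e2 e3 e4 = true := by
    intro a ha b hb c hc d hd e1 h1 e2 h2 e3 h3 e4 h4
    exact all2_true (all2_true (all2_true (all2_true (all2_true (all2_true (all2_true (all2_true
      ckS4_all a ha) b hb) c hc) d hd) e1 h1) e2 h2) e3 h3) e4 h4
  have hI : ∀ a ≤ 1, ∀ b ≤ 1, ∀ c ≤ 1, ∀ d ≤ 1, ∀ x ≤ 1, ∀ e1 ≤ 1, ∀ e2 ≤ 1, ∀ e3 ≤ 1, ∀ e4 ≤ 1,
      ∀ t1 ≤ 1, ∀ t2 ≤ 1, ∀ t3 ≤ 1, ∀ t4 ≤ 1, ∀ t5 ≤ 1, ∀ t6 ≤ 1,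
      ckI a b c d x e1 e2 e3 e4 t1 t2 t3 t4 t5 t6 = true := by
    intro a ha b hb c hc d hd x hx e1 h1 e2 h2 e3 h3 e4 h4 t1 k1 t2 k2 t3 k3 t4 k4 t5 k5 t6 k6
    exact all2_true (all2_true (all2_true (all2_true (all2_true (all2_true (all2_true (all2_true
      (all2_true (all2_true (ckI_all a ha b hb c hc d hd x hx) e1 h1) e2 h2) e3 h3) e4 h4) t1 k1)
      t2 k2) t3 k3) t4 k4) t5 k5) t6 k6
  have hP : ∀ a ≤ 1, ∀ b ≤ 1, ∀ x ≤ 1, ∀ y ≤ 1, ∀ e1 ≤ 1, ∀ e2 ≤ 1, ∀ e3 ≤ 1, ∀ e4 ≤ 1,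
      ckP a b x y e1 e2 e3 e4 = true := by
    intro a ha b hb c hc d hd e1 h1 e2 h2 e3 h3 e4 h4
    exact all2_true (all2_true (all2_true (all2_true (all2_true (all2_true (all2_true (all2_true
      ckP_all a ha) b hb) c hc) d hd) e1 h1) e2 h2) e3 h3) e4 h4
  have hS' : ∀ a ≤ 1, ∀ b ≤ 1, ∀ c ≤ 1, ∀ d ≤ 1, ∀ e1 ≤ 1, ∀ e2 ≤ 1, ∀ e3 ≤ 1, ∀ e4 ≤ 1,
      sig b a c d (b4 e1 e2 e4 e3) = sig a b c d (b4 e1 e2 e3 e4) ∧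
      sig a c b d (b4 e1 e3 e2 e4) = sig a b c d (b4 e1 e2 e3 e4) ∧
      sig a b d c (b4 e2 e1 e3 e4) = sig a b c d (b4 e1 e2 e3 e4) ∧
      sig a b c d (b4 e1 e2 e3 e4) ≤ 30 := by
    intro a ha b hb c hc d hd e1 h1 e2 h2 e3 h3 e4 h4
    have h := hS a ha b hb c hc d hd e1 h1 e2 h2 e3 h3 e4 h4
    simp only [ckS4, Bool.and_eq_true] at h
    exact ⟨Nat.eq_of_beq_eq_true h.1, Nat.eq_of_beq_eq_true h.2.1, Nat.eq_of_beq_eq_true h.2.2.1,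
      Nat.le_of_ble_eq_true h.2.2.2⟩
  have hI' : ∀ a ≤ 1, ∀ b ≤ 1, ∀ c ≤ 1, ∀ d ≤ 1, ∀ x ≤ 1, ∀ e1 ≤ 1, ∀ e2 ≤ 1, ∀ e3 ≤ 1, ∀ e4 ≤ 1,
      ∀ t1 ≤ 1, ∀ t2 ≤ 1, ∀ t3 ≤ 1, ∀ t4 ≤ 1, ∀ t5 ≤ 1, ∀ t6 ≤ 1,
      idf b a c d x (b4 e1 e2 e4 e3) (b6 t1 t4 t5 t2 t3 t6) =
        idf a b c d x (b4 e1 e2 e3 e4) (b6 t1 t2 t3 t4 t5 t6) ∧
      idf a c b d x (b4 e1 e3 e2 e4) (b6 t2 t1 t3 t4 t6 t5) =
        idf a b c d x (b4 e1 e2 e3 e4) (b6 t1 t2 t3 t4 t5 t6) ∧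
      idf a b d c x (b4 e2 e1 e3 e4) (b6 t1 t3 t2 t5 t4 t6) =
        idf a b c d x (b4 e1 e2 e3 e4) (b6 t1 t2 t3 t4 t5 t6) ∧
      idf a b c d x (b4 e1 e2 e3 e4) (b6 t1 t2 t3 t4 t5 t6) + 1 ≤
        ns (sig a b c d (b4 e1 e2 e3 e4)) ∧
      uf (sig a b c d (b4 e1 e2 e3 e4))
        (idf a b c d x (b4 e1 e2 e3 e4) (b6 t1 t2 t3 t4 t5 t6)) = x := by
    intro a ha b hb c hc d hd x hx e1 h1 e2 h2 e3 h3 e4 h4 t1 k1 t2 k2 t3 k3 t4 k4 t5 k5 t6 k6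
    have h := hI a ha b hb c hc d hd x hx e1 h1 e2 h2 e3 h3 e4 h4 t1 k1 t2 k2 t3 k3 t4 k4 t5 k5
      t6 k6
    simp only [ckI, Bool.and_eq_true] at h
    exact ⟨Nat.eq_of_beq_eq_true h.1, Nat.eq_of_beq_eq_true h.2.1, Nat.eq_of_beq_eq_true h.2.2.1,
      Nat.le_of_ble_eq_true h.2.2.2.1, Nat.eq_of_beq_eq_true h.2.2.2.2⟩
  have hP' : ∀ a ≤ 1, ∀ b ≤ 1, ∀ x ≤ 1, ∀ y ≤ 1, ∀ e1 ≤ 1, ∀ e2 ≤ 1, ∀ e3 ≤ 1, ∀ e4 ≤ 1,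
      ip b a (b6 e1 e2 e4 e3 x y) = ip a b (b6 e1 e2 e3 e4 x y) ∧
      ip a b (b6 e2 e1 e3 e4 y x) = ip a b (b6 e1 e2 e3 e4 x y) ∧
      ip a b (b6 e1 e2 e3 e4 x y) + 1 ≤ n2 (Nat.add a b) := by
    intro a ha b hb c hc d hd e1 h1 e2 h2 e3 h3 e4 h4
    have h := hP a ha b hb c hc d hd e1 h1 e2 h2 e3 h3 e4 h4
    simp only [ckP, Bool.and_eq_true] at h
    exact ⟨Nat.eq_of_beq_eq_true h.1, Nat.eq_of_beq_eq_true h.2.1, Nat.le_of_ble_eq_true h.2.2⟩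
  refine ⟨?_, ?_, ?_, ?_, ?_, ?_, ?_, ?_, ?_, ?_, ?_, ?_⟩
  · intro a ha b hb c hc d hd e1 h1 e2 h2 e3 h3 e4 h4
    exact (hS' a ha b hb c hc d hd e1 h1 e2 h2 e3 h3 e4 h4).1
  · intro a ha b hb c hc d hd e1 h1 e2 h2 e3 h3 e4 h4
    exact (hS' a ha b hb c hc d hd e1 h1 e2 h2 e3 h3 e4 h4).2.1
  · intro a ha b hb c hc d hd e1 h1 e2 h2 e3 h3 e4 h4
    exact (hS' a ha b hb c hc d hd e1 h1 e2 h2 e3 h3 e4 h4).2.2.1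
  · intro a ha b hb c hc d hd e1 h1 e2 h2 e3 h3 e4 h4
    have := (hS' a ha b hb c hc d hd e1 h1 e2 h2 e3 h3 e4 h4).2.2.2
    omega
  · intro a ha b hb c hc d hd x hx e1 h1 e2 h2 e3 h3 e4 h4 t1 k1 t2 k2 t3 k3 t4 k4 t5 k5 t6 k6
    exact (hI' a ha b hb c hc d hd x hx e1 h1 e2 h2 e3 h3 e4 h4 t1 k1 t2 k2 t3 k3 t4 k4 t5 k5
      t6 k6).1
  · intro a ha b hb c hc d hd x hx e1 h1 e2 h2 e3 h3 e4 h4 t1 k1 t2 k2 t3 k3 t4 k4 t5 k5 t6 k6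
    exact (hI' a ha b hb c hc d hd x hx e1 h1 e2 h2 e3 h3 e4 h4 t1 k1 t2 k2 t3 k3 t4 k4 t5 k5
      t6 k6).2.1
  · intro a ha b hb c hc d hd x hx e1 h1 e2 h2 e3 h3 e4 h4 t1 k1 t2 k2 t3 k3 t4 k4 t5 k5 t6 k6
    exact (hI' a ha b hb c hc d hd x hx e1 h1 e2 h2 e3 h3 e4 h4 t1 k1 t2 k2 t3 k3 t4 k4 t5 k5
      t6 k6).2.2.1
  · intro a ha b hb c hc d hd x hx e1 h1 e2 h2 e3 h3 e4 h4 t1 k1 t2 k2 t3 k3 t4 k4 t5 k5 t6 k6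
    have := (hI' a ha b hb c hc d hd x hx e1 h1 e2 h2 e3 h3 e4 h4 t1 k1 t2 k2 t3 k3 t4 k4 t5 k5
      t6 k6).2.2.2.1
    omega
  · intro a ha b hb c hc d hd x hx e1 h1 e2 h2 e3 h3 e4 h4 t1 k1 t2 k2 t3 k3 t4 k4 t5 k5 t6 k6
    exact (hI' a ha b hb c hc d hd x hx e1 h1 e2 h2 e3 h3 e4 h4 t1 k1 t2 k2 t3 k3 t4 k4 t5 k5
      t6 k6).2.2.2.2
  · intro a ha b hb c hc d hd e1 h1 e2 h2 e3 h3 e4 h4
    exact (hP' a ha b hb c hc d hd e1 h1 e2 h2 e3 h3 e4 h4).1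
  · intro a ha b hb c hc d hd e1 h1 e2 h2 e3 h3 e4 h4
    exact (hP' a ha b hb c hc d hd e1 h1 e2 h2 e3 h3 e4 h4).2.1
  · intro a ha b hb c hc d hd e1 h1 e2 h2 e3 h3 e4 h4
    have := (hP' a ha b hb c hc d hd e1 h1 e2 h2 e3 h3 e4 h4).2.2
    omega

end Pool.Agent.T9h12.C6
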