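import Pool.Agent.T9h12.C6.Low
import Pool.Agent.T9h12.C6.IdsOk
import Pool.Agent.T9h12.C6.Gram

/-! Evaluation at the representatives. -/

set_option autoImplicit false
set_option maxRecDepth 100000
set_option maxHeartbeats 4000000
open Finset

namespace Pool.Agent.T9h12.C6
open Pool.Agent.H449R2.Fl

/-- check of one 3-graph with all its two-colourings -/
def ck6 (badc : ℕ → ℕ → ℕ → ℕ → ℕ → ℕ → ℕ → Bool)
    (v : ℕ → ℕ → ℕ → ℕ → ℕ → ℕ → ℕ → ℕ) (B m : ℕ) : Bool :=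
  or (hasK4 m) (all2 fun c0 => all2 fun c1 => all2 fun c2 => all2 fun c3 => all2 fun c4 =>
    all2 fun c5 => or (badc m c0 c1 c2 c3 c4 c5) (Nat.ble (v m c0 c1 c2 c3 c4 c5) B))

/-- check of a range of representatives -/
def ckR (badc : ℕ → ℕ → ℕ → ℕ → ℕ → ℕ → ℕ → Bool)
    (v : ℕ → ℕ → ℕ → ℕ → ℕ → ℕ → ℕ → ℕ) (B lo len : ℕ) : Bool :=
  nall len fun k => ck6 badc v B (rep6 (Nat.add lo k))

/-- no further exclusion -/
def nobad (_ _ _ _ _ _ _ : ℕ) : Bool := false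

/-- an edge inside the class of colour zero -/
def inA (m c0 c1 c2 c3 c4 c5 : ℕ) : Bool :=
  or (Nat.beq (pe m 0 1 2) (Nat.add 1 (Nat.add c0 (Nat.add c1 c2))))
  (or (Nat.beq (pe m 0 1 3) (Nat.add 1 (Nat.add c0 (Nat.add c1 c3))))
  (or (Nat.beq (pe m 0 2 3) (Nat.add 1 (Nat.add c0 (Nat.add c2 c3))))
  (or (Nat.beq (pe m 1 2 3) (Nat.add 1 (Nat.add c1 (Nat.add c2 c3))))
  (or (Nat.beq (pe m 0 1 4) (Nat.add 1 (Nat.add c0 (Nat.add c1 c4))))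
  (or (Nat.beq (pe m 0 2 4) (Nat.add 1 (Nat.add c0 (Nat.add c2 c4))))
  (or (Nat.beq (pe m 1 2 4) (Nat.add 1 (Nat.add c1 (Nat.add c2 c4))))
  (or (Nat.beq (pe m 0 3 4) (Nat.add 1 (Nat.add c0 (Nat.add c3 c4))))
  (or (Nat.beq (pe m 1 3 4) (Nat.add 1 (Nat.add c1 (Nat.add c3 c4))))
  (or (Nat.beq (pe m 2 3 4) (Nat.add 1 (Nat.add c2 (Nat.add c3 c4))))
  (or (Nat.beq (pe m 0 1 5) (Nat.add 1 (Nat.add c0 (Nat.add c1 c5))))
  (or (Nat.beq (pe m 0 2 5) (Nat.add 1 (Nat.add c0 (Nat.add c2 c5))))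
  (or (Nat.beq (pe m 1 2 5) (Nat.add 1 (Nat.add c1 (Nat.add c2 c5))))
  (or (Nat.beq (pe m 0 3 5) (Nat.add 1 (Nat.add c0 (Nat.add c3 c5))))
  (or (Nat.beq (pe m 1 3 5) (Nat.add 1 (Nat.add c1 (Nat.add c3 c5))))
  (or (Nat.beq (pe m 2 3 5) (Nat.add 1 (Nat.add c2 (Nat.add c3 c5))))
  (or (Nat.beq (pe m 0 4 5) (Nat.add 1 (Nat.add c0 (Nat.add c4 c5))))
  (or (Nat.beq (pe m 1 4 5) (Nat.add 1 (Nat.add c1 (Nat.add c4 c5))))
  (or (Nat.beq (pe m 2 4 5) (Nat.add 1 (Nat.add c2 (Nat.add c4 c5))))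
  (Nat.beq (pe m 3 4 5) (Nat.add 1 (Nat.add c3 (Nat.add c4 c5))))))))))))))))))))))

theorem ckR_true {badc : ℕ → ℕ → ℕ → ℕ → ℕ → ℕ → ℕ → Bool}
    {v : ℕ → ℕ → ℕ → ℕ → ℕ → ℕ → ℕ → ℕ} {B lo len : ℕ} (h : ckR badc v B lo len = true)
    {k : ℕ} (h1 : lo ≤ k) (h2 : k < lo + len) :
    ∀ c0 ≤ 1, ∀ c1 ≤ 1, ∀ c2 ≤ 1, ∀ c3 ≤ 1, ∀ c4 ≤ 1, ∀ c5 ≤ 1,
      ((hasK4 (rep6 k) || badc (rep6 k) c0 c1 c2 c3 c4 c5) ||
        Nat.ble (v (rep6 k) c0 c1 c2 c3 c4 c5) B) = true := by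
  intro c0 h0 c1 k1 c2 k2 c3 k3 c4 k4 c5 k5
  have h3 := nall_true h (k - lo) (by omega)
  have h4 : Nat.add lo (k - lo) = k := by simp only [Nat.add_eq]; omega
  rw [h4] at h3
  have h5 : (hasK4 (rep6 k) || (all2 fun c0 => all2 fun c1 => all2 fun c2 => all2 fun c3 =>
    all2 fun c4 => all2 fun c5 => or (badc (rep6 k) c0 c1 c2 c3 c4 c5)
      (Nat.ble (v (rep6 k) c0 c1 c2 c3 c4 c5) B))) = true := h3
  rw [Bool.or_eq_true] at h5
  rcases h5 with h5 | h5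
  · rw [h5]; rfl
  · have h6 : (badc (rep6 k) c0 c1 c2 c3 c4 c5 ||
      Nat.ble (v (rep6 k) c0 c1 c2 c3 c4 c5) B) = true :=
      all2_true (all2_true (all2_true (all2_true (all2_true (all2_true h5 c0 h0) c1 k1) c2 k2)
        c3 k3) c4 k4) c5 k5
    rw [Bool.or_assoc, h6, Bool.or_true]

theorem inA_false {V : Type} {e : V → V → V → ℕ} {c : V → ℕ}
    (hI : ∀ x y z, c x = 0 → c y = 0 → c z = 0 → e x y z = 0)
    (v : Fin 6 → V) (m : ℕ)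
    (h : ∀ i j k : Fin 6, e (v i) (v j) (v k) = pe m i.val j.val k.val) :
    inA m (c (v 0)) (c (v 1)) (c (v 2)) (c (v 3)) (c (v 4)) (c (v 5)) = false := by
  have key : ∀ i j k : Fin 6, Nat.beq (pe m i.val j.val k.val)
      (Nat.add 1 (Nat.add (c (v i)) (Nat.add (c (v j)) (c (v k))))) = false := by
    intro i j k
    refine Bool.eq_false_iff.mpr fun h3 => ?_
    have h4 := Nat.eq_of_beq_eq_true h3
    rw [← h] at h4
    simp only [Nat.add_eq] at h4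
    have h5 := hI (v i) (v j) (v k)
    by_cases h6 : c (v i) = 0 ∧ c (v j) = 0 ∧ c (v k) = 0
    · rw [h5 h6.1 h6.2.1 h6.2.2] at h4; omega
    · have h7 : pe m i.val j.val k.val ≤ 1 := by
        unfold pe
        exact Nat.and_le_right
      rw [← h] at h7
      omega
  have k0 := key 0 1 2
  have k1 := key 0 1 3
  have k2 := key 0 2 3
  have k3 := key 1 2 3
  have k4 := key 0 1 4
  have k5 := key 0 2 4
  have k6 := key 1 2 4
  have k7 := key 0 3 4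
  have k8 := key 1 3 4
  have k9 := key 2 3 4
  have k10 := key 0 1 5
  have k11 := key 0 2 5
  have k12 := key 1 2 5
  have k13 := key 0 3 5
  have k14 := key 1 3 5
  have k15 := key 2 3 5
  have k16 := key 0 4 5
  have k17 := key 1 4 5
  have k18 := key 2 4 5
  have k19 := key 3 4 5
  simp only [Fin.val_zero, Fin.val_one, Fin.val_two] at *
  unfold inA
  simp only [Bool.or_eq_false_iff]
  exact ⟨k0, k1, k2, k3, k4, k5, k6, k7, k8, k9, k10, k11, k12, k13, k14, k15, k16, k17, k18, k19⟩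

end Pool.Agent.T9h12.C6
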