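import Pool.Agent.T9h12.C6.Red

/-! The lower bound for the total of the functional. -/

set_option autoImplicit false
set_option maxHeartbeats 4000000
open Finset

namespace Pool.Agent.T9h12.C6
open Pool.Agent.H449R2.Fl

theorem sq_sum' {X : Type} [Fintype X] (K : ℕ) (g : X → ℕ → ℤ) :
    0 ≤ ∑ x, ∑ y, ∑ k ∈ range K, g x k * g y k := by
  have h := sq_sum K (fun _ => 1) g
  simpa using h

section
variable {V : Type} [Fintype V] {e : V → V → V → ℕ} {c : V → ℕ}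
  {sig : ℕ → ℕ → ℕ → ℕ → ℕ → ℕ} {idf : ℕ → ℕ → ℕ → ℕ → ℕ → ℕ → ℕ → ℕ}
  {ip : ℕ → ℕ → ℕ → ℕ} {ns : ℕ → ℕ} {uf : ℕ → ℕ → ℕ} {n2 : ℕ → ℕ}
  (he : Pat e) (hc : ∀ x, c x ≤ 1) (I : IdOk sig idf ip ns uf n2)
  {TG TP : ℕ → ℕ → ℕ → ℕ} {TQ : ℕ → ℕ → ℕ} {zz : ℕ → ℤ} {oG oP oQ W : ℤ} {tau mu : ℕ → ℤ}
  (C : CertOk ns uf n2 TG TP TQ zz oG oP oQ W tau mu)
include he hc C

include I in
theorem low_G (hz : ∑ x, zz (c x) = 0) (a b c' d : V) :
    oG * (Fintype.card V : ℤ) ^ 2 ≤ ∑ x, ∑ y, (phG e c sig idf TG x y a b c' d : ℤ) := by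
  obtain ⟨K, f, H, hG⟩ := C.hG
  set s := sig (c a) (c b) (c c') (c d) (sg e a b c' d) with hs
  set i : V → ℕ := fun x => idf (c a) (c b) (c c') (c d) (c x) (sg e a b c' d) (ta e a b c' d x)
    with hi
  have h1 : ∑ x, ∑ y, (phG e c sig idf TG x y a b c' d : ℤ) =
      ∑ x, ∑ y, (oG + ∑ k ∈ range K, f s (i x) k * f s (i y) k +
        (zz (c x) * H s (i y) + zz (c y) * H s (i x))) := by
    refine sum_congr rfl fun x _ => sum_congr rfl fun y _ => ?_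
    simp only [phG, vG]
    rw [hG _ (sig_lt he hc I a b c' d) _ (id_lt he hc I a b c' d x) _ (id_lt he hc I a b c' d y),
      id_uf he hc I a b c' d x, id_uf he hc I a b c' d y]
  have h2 := sq_sum' K (fun x k => f s (i x) k)
  have h3 : ∑ x, ∑ y, zz (c x) * H s (i y) = 0 := by
    simp only [← mul_sum]
    rw [← sum_mul, hz, zero_mul]
  have h4 : ∑ x, ∑ y, zz (c y) * H s (i x) = 0 := by
    simp only [← sum_mul]
    simp only [hz, zero_mul, sum_const_zero]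
  rw [h1]
  simp only [sum_add_distrib, h3, h4, sum_const, card_univ, nsmul_eq_mul]
  nlinarith [h2]

include I in
theorem low_P (a b : V) :
    oP * (Fintype.card V : ℤ) ^ 4 ≤ ∑ x, ∑ y, ∑ z, ∑ w, (phP e c ip TP a b x y z w : ℤ) := by
  obtain ⟨K, f, hP⟩ := C.hP
  set r := Nat.add (c a) (c b) with hr
  set i : V → V → ℕ := fun x y => ip (c a) (c b) (cp e a b x y (c x) (c y)) with hi
  have hr3 : r < 3 := by
    have h1 := hc a
    have h2 := hc b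
    simp only [hr, Nat.add_eq]; omega
  have h1 : ∑ x, ∑ y, ∑ z, ∑ w, (phP e c ip TP a b x y z w : ℤ) =
      ∑ x, ∑ y, ∑ z, ∑ w, (oP + ∑ k ∈ range K, f r (i x y) k * f r (i z w) k) := by
    refine sum_congr rfl fun x _ => sum_congr rfl fun y _ => sum_congr rfl fun z _ =>
      sum_congr rfl fun w _ => ?_
    simp only [phP, vP]
    rw [hP _ hr3 _ (ip_lt he hc I a b x y) _ (ip_lt he hc I a b z w)]
  have h2 := sq_sum' K (fun (p : V × V) k => f r (i p.1 p.2) k)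
  simp only [Fintype.sum_prod_type] at h2
  rw [h1]
  simp only [sum_add_distrib, sum_const, card_univ, nsmul_eq_mul]
  linarith [h2, show oP * (Fintype.card V : ℤ) ^ 4 = (Fintype.card V : ℤ) * ((Fintype.card V : ℤ) *
    ((Fintype.card V : ℤ) * ((Fintype.card V : ℤ) * oP))) by ring]

theorem low_Q (ht : 0 ≤ ∑ a, ∑ b, ∑ x, tau (st e a b x (c a) (c b) (c x))) :
    oQ * (Fintype.card V : ℤ) ^ 6 + 2 * W * (Fintype.card V : ℤ) ^ 3 *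
        ∑ a, ∑ b, ∑ x, (e a b x : ℤ) ≤
      ∑ a, ∑ b, ∑ d, ∑ x, ∑ y, ∑ z, (phQ e c TQ a b d x y z : ℤ) := by
  obtain ⟨K, f, hQ⟩ := C.hQ
  set n : ℤ := (Fintype.card V : ℤ) with hn
  let s : V × V × V → ℕ := fun p => st e p.1 p.2.1 p.2.2 (c p.1) (c p.2.1) (c p.2.2)
  have hs : ∀ p, s p < 8 := fun p => st_lt he hc _ _ _
  have hs2 : ∀ p, s p % 2 = e p.1 p.2.1 p.2.2 := by
    intro p
    have h1 := he.le1 p.1 p.2.1 p.2.2
    simp only [s, st, Nat.add_eq, Nat.mul_eq]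
    omega
  have hcard : (Fintype.card (V × V × V) : ℤ) = n ^ 3 := by
    rw [Fintype.card_prod, Fintype.card_prod]; push_cast; ring
  have h1 : ∑ a, ∑ b, ∑ d, ∑ x, ∑ y, ∑ z, (phQ e c TQ a b d x y z : ℤ) =
      ∑ p : V × V × V, ∑ q : V × V × V, (TQ (s p) (s q) : ℤ) := by
    simp only [Fintype.sum_prod_type]
    rfl
  have h2 : ∑ p : V × V × V, ∑ q : V × V × V, (TQ (s p) (s q) : ℤ) =
      ∑ p : V × V × V, ∑ q : V × V × V, (oQ + ∑ k ∈ range K, f (s p) k * f (s q) k +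
        W * ((e p.1 p.2.1 p.2.2 : ℤ) + (e q.1 q.2.1 q.2.2 : ℤ)) +
        (tau (s p) * mu (s q) + tau (s q) * mu (s p))) := by
    refine sum_congr rfl fun p _ => sum_congr rfl fun q _ => ?_
    rw [hQ _ (hs p) _ (hs q), hs2 p, hs2 q]
  have h3 := sq_sum' K (fun (p : V × V × V) k => f (s p) k)
  have hE : ∑ p : V × V × V, (e p.1 p.2.1 p.2.2 : ℤ) = ∑ a, ∑ b, ∑ x, (e a b x : ℤ) := by
    simp only [Fintype.sum_prod_type]
  have ht' : 0 ≤ ∑ p : V × V × V, tau (s p) := by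
    simp only [Fintype.sum_prod_type]
    exact ht
  have hm : 0 ≤ ∑ p : V × V × V, mu (s p) := sum_nonneg fun p _ => C.hmu _ (hs p)
  have h5 : ∑ p : V × V × V, tau (s p) * ∑ q : V × V × V, mu (s q) =
      (∑ p, tau (s p)) * ∑ p, mu (s p) := by
    rw [← sum_mul]
  have h6 : ∑ p : V × V × V, ∑ q : V × V × V, tau (s q) * mu (s p) =
      (∑ p, tau (s p)) * ∑ p, mu (s p) := by
    simp only [← sum_mul, ← mul_sum]
  have h7 := mul_nonneg ht' hm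
  rw [h1, h2]
  simp only [sum_add_distrib, h6, sum_const, card_univ, nsmul_eq_mul, ← mul_sum, hcard, hE, h5]
  nlinarith [h3, h7]

include I in
theorem low (hz : ∑ x, zz (c x) = 0)
    (ht : 0 ≤ ∑ a, ∑ b, ∑ x, tau (st e a b x (c a) (c b) (c x))) :
    (oG + oP + oQ) * (Fintype.card V : ℤ) ^ 6 + 2 * W * (Fintype.card V : ℤ) ^ 3 *
        ∑ a, ∑ b, ∑ x, (e a b x : ℤ) ≤
    ((∑ a, ∑ b, ∑ c', ∑ d, ∑ x, ∑ y, phi6 e c sig idf ip TG TP TQ a b c' d x y : ℕ) : ℤ) := by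
  set n : ℤ := (Fintype.card V : ℤ) with hn
  have h0 := low_Q he hc C ht
  have h1 : ∑ a : V, ∑ b : V, oP * n ^ 4 ≤
      ∑ a, ∑ b, ∑ x, ∑ y, ∑ z, ∑ w, (phP e c ip TP a b x y z w : ℤ) :=
    sum_le_sum fun a _ => sum_le_sum fun b _ => low_P he hc I C a b
  have h2 : ∑ a : V, ∑ b : V, ∑ c' : V, ∑ d : V, oG * n ^ 2 ≤
      ∑ a, ∑ b, ∑ c', ∑ d, ∑ x, ∑ y, (phG e c sig idf TG x y a b c' d : ℤ) :=
    sum_le_sum fun a _ => sum_le_sum fun b _ => sum_le_sum fun c' _ => sum_le_sum fun d _ =>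
      low_G he hc I C hz a b c' d
  have h3 : ∑ a, ∑ b, ∑ c', ∑ d, ∑ x, ∑ y, (phG e c sig idf TG x y a b c' d : ℤ) =
      ∑ x, ∑ y, ∑ a, ∑ b, ∑ c', ∑ d, (phG e c sig idf TG x y a b c' d : ℤ) := by
    have k1 : ∀ F : V → V → V → V → V → ℤ, ∑ a, ∑ b, ∑ c', ∑ d, ∑ x, F x a b c' d =
        ∑ x, ∑ a, ∑ b, ∑ c', ∑ d, F x a b c' d := by
      intro F
      have e1 : ∀ a b c', ∑ d, ∑ x, F x a b c' d = ∑ x, ∑ d, F x a b c' d := fun _ _ _ => sum_comm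
      have e2 : ∀ a b, ∑ c', ∑ d, ∑ x, F x a b c' d = ∑ x, ∑ c', ∑ d, F x a b c' d := fun a b => by
        simp only [e1]; exact sum_comm
      have e3 : ∀ a, ∑ b, ∑ c', ∑ d, ∑ x, F x a b c' d = ∑ x, ∑ b, ∑ c', ∑ d, F x a b c' d :=
        fun a => by simp only [e2]; exact sum_comm
      simp only [e3]; exact sum_comm
    have e4 := k1 fun x a b c' d => ∑ y, (phG e c sig idf TG x y a b c' d : ℤ)
    rw [e4]
    exact sum_congr rfl fun x _ => k1 fun y a b c' d => (phG e c sig idf TG x y a b c' d : ℤ)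
  have h4 : ((∑ a, ∑ b, ∑ c', ∑ d, ∑ x, ∑ y, phi6 e c sig idf ip TG TP TQ a b c' d x y : ℕ) : ℤ) =
      ∑ x, ∑ y, ∑ a, ∑ b, ∑ c', ∑ d, (phG e c sig idf TG x y a b c' d : ℤ) +
      ∑ a, ∑ b, ∑ x, ∑ y, ∑ z, ∑ w, (phP e c ip TP a b x y z w : ℤ) +
      ∑ a, ∑ b, ∑ d, ∑ x, ∑ y, ∑ z, (phQ e c TQ a b d x y z : ℤ) := by
    simp only [phi6]
    push_cast
    simp only [sum_add_distrib]
  rw [h4, ← h3]
  simp only [sum_const, card_univ, nsmul_eq_mul, ← hn] at h1 h2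
  nlinarith [h0, h1, h2]

end

/-- The bound given by a certificate. -/
theorem cert_bound {V : Type} [Fintype V] {e : V → V → V → ℕ} {c : V → ℕ}
    {sig : ℕ → ℕ → ℕ → ℕ → ℕ → ℕ} {idf : ℕ → ℕ → ℕ → ℕ → ℕ → ℕ → ℕ → ℕ}
    {ip : ℕ → ℕ → ℕ → ℕ} {ns : ℕ → ℕ} {uf : ℕ → ℕ → ℕ} {n2 : ℕ → ℕ}
    (he : Pat e) (hc : ∀ x, c x ≤ 1) (I : IdOk sig idf ip ns uf n2)
    {TG TP : ℕ → ℕ → ℕ → ℕ} {TQ : ℕ → ℕ → ℕ} {zz : ℕ → ℤ} {oG oP oQ W : ℤ} {tau mu : ℕ → ℤ}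
    (C : CertOk ns uf n2 TG TP TQ zz oG oP oQ W tau mu)
    (B : ℕ) (bad : ℕ → ℕ → ℕ → ℕ → ℕ → ℕ → ℕ → Bool)
    (hchk : ∀ h < 2136, ∀ c0 ≤ 1, ∀ c1 ≤ 1, ∀ c2 ≤ 1, ∀ c3 ≤ 1, ∀ c4 ≤ 1, ∀ c5 ≤ 1,
      (bad (rep6 h) c0 c1 c2 c3 c4 c5 ||
        Nat.ble (val sig idf ip TG TP TQ (rep6 h) c0 c1 c2 c3 c4 c5) B) = true)
    (hbad : ∀ (v : Fin 6 → V) (m : ℕ),
      (∀ i j k : Fin 6, e (v i) (v j) (v k) = pe m i.val j.val k.val) →
      bad m (c (v 0)) (c (v 1)) (c (v 2)) (c (v 3)) (c (v 4)) (c (v 5)) = false)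
    (hz : ∑ x, zz (c x) = 0)
    (ht : 0 ≤ ∑ a, ∑ b, ∑ x, tau (st e a b x (c a) (c b) (c x))) :
    1440 * W * ∑ a, ∑ b, ∑ x, (e a b x : ℤ) ≤
      ((B : ℤ) - 720 * (oG + oP + oQ)) * (Fintype.card V : ℤ) ^ 3 := by
  have h1 := low he hc I C hz ht
  have h2 : ∑ a : V, ∑ b : V, ∑ c' : V, ∑ d : V, ∑ x : V, ∑ y : V,
      sel6 (phi6 e c sig idf ip TG TP TQ) a b c' d x y ≤ B * Fintype.card V ^ 6 := by
    have h3 : ∑ a : V, ∑ b : V, ∑ c' : V, ∑ d : V, ∑ x : V, ∑ y : V,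
        sel6 (phi6 e c sig idf ip TG TP TQ) a b c' d x y ≤
        ∑ a : V, ∑ b : V, ∑ c' : V, ∑ d : V, ∑ x : V, ∑ y : V, B :=
      sum_le_sum fun a _ => sum_le_sum fun b _ => sum_le_sum fun c' _ => sum_le_sum fun d _ =>
        sum_le_sum fun x _ => sum_le_sum fun y _ =>
          sel_le he hc I C B bad hchk hbad ![a, b, c', d, x, y]
    refine h3.trans (le_of_eq ?_)
    simp only [sum_const, card_univ, smul_eq_mul]
    ring
  rw [tot6] at h2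
  have h4 : (720 : ℤ) * ((∑ a, ∑ b, ∑ c', ∑ d, ∑ x, ∑ y,
      phi6 e c sig idf ip TG TP TQ a b c' d x y : ℕ) : ℤ) ≤
      (B : ℤ) * (Fintype.card V : ℤ) ^ 6 := by exact_mod_cast h2
  rcases Nat.eq_zero_or_pos (Fintype.card V) with h0 | h0
  · have h5 : IsEmpty V := Fintype.card_eq_zero_iff.mp h0
    simp [h0]
  · have hn : (0 : ℤ) < (Fintype.card V : ℤ) ^ 3 := by positivity
    have h5 : (Fintype.card V : ℤ) ^ 3 * (1440 * W * ∑ a, ∑ b, ∑ x, (e a b x : ℤ)) ≤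
        (Fintype.card V : ℤ) ^ 3 * (((B : ℤ) - 720 * (oG + oP + oQ)) *
          (Fintype.card V : ℤ) ^ 3) := by
      nlinarith [h1, h4]
    exact le_of_mul_le_mul_left h5 hn

end Pool.Agent.T9h12.C6
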