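import Pool.Agent.T9h12.C6.Defs

/-! Properties of the tables. -/

set_option autoImplicit false
set_option maxHeartbeats 4000000
open Finset

namespace Pool.Agent.T9h12.C6
open Pool.Agent.H449R2.Fl

/-- number with four binary digits -/
def b4 (x y z w : ℕ) : ℕ :=
  Nat.add x (Nat.mul 2 (Nat.add y (Nat.mul 2 (Nat.add z (Nat.mul 2 w)))))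
/-- number with six binary digits -/
def b6 (x y z w u v : ℕ) : ℕ :=
  Nat.add x (Nat.mul 2 (Nat.add y (Nat.mul 2 (Nat.add z (Nat.mul 2 (Nat.add w (Nat.mul 2
    (Nat.add u (Nat.mul 2 v)))))))))

/-- properties of the tables of flag classes -/
structure IdOk (sig : ℕ → ℕ → ℕ → ℕ → ℕ → ℕ) (idf : ℕ → ℕ → ℕ → ℕ → ℕ → ℕ → ℕ → ℕ)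
    (ip : ℕ → ℕ → ℕ → ℕ) (ns : ℕ → ℕ) (uf : ℕ → ℕ → ℕ) (n2 : ℕ → ℕ) : Prop where
  s1 : ∀ a ≤ 1, ∀ b ≤ 1, ∀ c ≤ 1, ∀ d ≤ 1, ∀ e1 ≤ 1, ∀ e2 ≤ 1, ∀ e3 ≤ 1, ∀ e4 ≤ 1,
    sig b a c d (b4 e1 e2 e4 e3) = sig a b c d (b4 e1 e2 e3 e4)
  s2 : ∀ a ≤ 1, ∀ b ≤ 1, ∀ c ≤ 1, ∀ d ≤ 1, ∀ e1 ≤ 1, ∀ e2 ≤ 1, ∀ e3 ≤ 1, ∀ e4 ≤ 1,
    sig a c b d (b4 e1 e3 e2 e4) = sig a b c d (b4 e1 e2 e3 e4)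
  s3 : ∀ a ≤ 1, ∀ b ≤ 1, ∀ c ≤ 1, ∀ d ≤ 1, ∀ e1 ≤ 1, ∀ e2 ≤ 1, ∀ e3 ≤ 1, ∀ e4 ≤ 1,
    sig a b d c (b4 e2 e1 e3 e4) = sig a b c d (b4 e1 e2 e3 e4)
  slt : ∀ a ≤ 1, ∀ b ≤ 1, ∀ c ≤ 1, ∀ d ≤ 1, ∀ e1 ≤ 1, ∀ e2 ≤ 1, ∀ e3 ≤ 1, ∀ e4 ≤ 1,
    sig a b c d (b4 e1 e2 e3 e4) < 31
  i1 : ∀ a ≤ 1, ∀ b ≤ 1, ∀ c ≤ 1, ∀ d ≤ 1, ∀ x ≤ 1, ∀ e1 ≤ 1, ∀ e2 ≤ 1, ∀ e3 ≤ 1, ∀ e4 ≤ 1,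
    ∀ t1 ≤ 1, ∀ t2 ≤ 1, ∀ t3 ≤ 1, ∀ t4 ≤ 1, ∀ t5 ≤ 1, ∀ t6 ≤ 1,
    idf b a c d x (b4 e1 e2 e4 e3) (b6 t1 t4 t5 t2 t3 t6) =
      idf a b c d x (b4 e1 e2 e3 e4) (b6 t1 t2 t3 t4 t5 t6)
  i2 : ∀ a ≤ 1, ∀ b ≤ 1, ∀ c ≤ 1, ∀ d ≤ 1, ∀ x ≤ 1, ∀ e1 ≤ 1, ∀ e2 ≤ 1, ∀ e3 ≤ 1, ∀ e4 ≤ 1,
    ∀ t1 ≤ 1, ∀ t2 ≤ 1, ∀ t3 ≤ 1, ∀ t4 ≤ 1, ∀ t5 ≤ 1, ∀ t6 ≤ 1,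
    idf a c b d x (b4 e1 e3 e2 e4) (b6 t2 t1 t3 t4 t6 t5) =
      idf a b c d x (b4 e1 e2 e3 e4) (b6 t1 t2 t3 t4 t5 t6)
  i3 : ∀ a ≤ 1, ∀ b ≤ 1, ∀ c ≤ 1, ∀ d ≤ 1, ∀ x ≤ 1, ∀ e1 ≤ 1, ∀ e2 ≤ 1, ∀ e3 ≤ 1, ∀ e4 ≤ 1,
    ∀ t1 ≤ 1, ∀ t2 ≤ 1, ∀ t3 ≤ 1, ∀ t4 ≤ 1, ∀ t5 ≤ 1, ∀ t6 ≤ 1,
    idf a b d c x (b4 e2 e1 e3 e4) (b6 t1 t3 t2 t5 t4 t6) =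
      idf a b c d x (b4 e1 e2 e3 e4) (b6 t1 t2 t3 t4 t5 t6)
  ilt : ∀ a ≤ 1, ∀ b ≤ 1, ∀ c ≤ 1, ∀ d ≤ 1, ∀ x ≤ 1, ∀ e1 ≤ 1, ∀ e2 ≤ 1, ∀ e3 ≤ 1, ∀ e4 ≤ 1,
    ∀ t1 ≤ 1, ∀ t2 ≤ 1, ∀ t3 ≤ 1, ∀ t4 ≤ 1, ∀ t5 ≤ 1, ∀ t6 ≤ 1,
    idf a b c d x (b4 e1 e2 e3 e4) (b6 t1 t2 t3 t4 t5 t6) < ns (sig a b c d (b4 e1 e2 e3 e4))
  iuf : ∀ a ≤ 1, ∀ b ≤ 1, ∀ c ≤ 1, ∀ d ≤ 1, ∀ x ≤ 1, ∀ e1 ≤ 1, ∀ e2 ≤ 1, ∀ e3 ≤ 1, ∀ e4 ≤ 1,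
    ∀ t1 ≤ 1, ∀ t2 ≤ 1, ∀ t3 ≤ 1, ∀ t4 ≤ 1, ∀ t5 ≤ 1, ∀ t6 ≤ 1,
    uf (sig a b c d (b4 e1 e2 e3 e4))
      (idf a b c d x (b4 e1 e2 e3 e4) (b6 t1 t2 t3 t4 t5 t6)) = x
  p1 : ∀ a ≤ 1, ∀ b ≤ 1, ∀ x ≤ 1, ∀ y ≤ 1, ∀ e1 ≤ 1, ∀ e2 ≤ 1, ∀ e3 ≤ 1, ∀ e4 ≤ 1,
    ip b a (b6 e1 e2 e4 e3 x y) = ip a b (b6 e1 e2 e3 e4 x y)
  p2 : ∀ a ≤ 1, ∀ b ≤ 1, ∀ x ≤ 1, ∀ y ≤ 1, ∀ e1 ≤ 1, ∀ e2 ≤ 1, ∀ e3 ≤ 1, ∀ e4 ≤ 1,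
    ip a b (b6 e2 e1 e3 e4 y x) = ip a b (b6 e1 e2 e3 e4 x y)
  plt : ∀ a ≤ 1, ∀ b ≤ 1, ∀ x ≤ 1, ∀ y ≤ 1, ∀ e1 ≤ 1, ∀ e2 ≤ 1, ∀ e3 ≤ 1, ∀ e4 ≤ 1,
    ip a b (b6 e1 e2 e3 e4 x y) < n2 (Nat.add a b)

/-- properties of the tables of a certificate: `zz` balances the colours, `ta` is the slack of
the constraint on triples, `mu` its multiplier -/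
structure CertOk (ns : ℕ → ℕ) (uf : ℕ → ℕ → ℕ) (n2 : ℕ → ℕ) (TG TP : ℕ → ℕ → ℕ → ℕ)
    (TQ : ℕ → ℕ → ℕ) (zz : ℕ → ℤ) (oG oP oQ W : ℤ) (tau mu : ℕ → ℤ) : Prop where
  hG : ∃ (K : ℕ) (f : ℕ → ℕ → ℕ → ℤ) (H : ℕ → ℕ → ℤ), ∀ s < 31, ∀ i < ns s, ∀ j < ns s,
    (TG s i j : ℤ) = oG + ∑ k ∈ range K, f s i k * f s j k +
      (zz (uf s i) * H s j + zz (uf s j) * H s i)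
  hP : ∃ (K : ℕ) (f : ℕ → ℕ → ℕ → ℤ), ∀ r < 3, ∀ i < n2 r, ∀ j < n2 r,
    (TP r i j : ℤ) = oP + ∑ k ∈ range K, f r i k * f r j k
  hQ : ∃ (K : ℕ) (f : ℕ → ℕ → ℤ), ∀ s < 8, ∀ t < 8,
    (TQ s t : ℤ) = oQ + ∑ k ∈ range K, f s k * f t k + W * ((s % 2 : ℕ) + (t % 2 : ℕ)) +
      (tau s * mu t + tau t * mu s)
  hmu : ∀ s < 8, 0 ≤ mu s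

end Pool.Agent.T9h12.C6
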