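import Pool.Agent.T9h12.C6.Ok

/-! The sum over orderings reduces to the value at a representative. -/

set_option autoImplicit false
set_option maxHeartbeats 4000000
open Finset

namespace Pool.Agent.T9h12.C6
open Pool.Agent.H449R2.Fl

section
variable {V : Type} {e : V → V → V → ℕ} {c : V → ℕ}
  {sig : ℕ → ℕ → ℕ → ℕ → ℕ → ℕ} {idf : ℕ → ℕ → ℕ → ℕ → ℕ → ℕ → ℕ → ℕ}
  {ip : ℕ → ℕ → ℕ → ℕ} {ns : ℕ → ℕ} {uf : ℕ → ℕ → ℕ} {n2 : ℕ → ℕ}

theorem sg_b4 (a b c d : V) : sg e a b c d = b4 (e a b c) (e a b d) (e a c d) (e b c d) := rfl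
theorem ta_b6 (a b c d x : V) : ta e a b c d x =
  b6 (e a b x) (e a c x) (e a d x) (e b c x) (e b d x) (e c d x) := rfl
theorem cp_b6 (a b x y : V) (cx cy : ℕ) : cp e a b x y cx cy =
  b6 (e a b x) (e a b y) (e a x y) (e b x y) cx cy := rfl

variable (he : Pat e) (hc : ∀ x, c x ≤ 1) (I : IdOk sig idf ip ns uf n2)
include he hc

theorem st_lt (a b x : V) : st e a b x (c a) (c b) (c x) < 8 := by
  have h1 := hc a
  have h2 := hc b
  have h3 := hc x
  have h4 := he.le1 a b x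
  simp only [st, Nat.add_eq, Nat.mul_eq]
  omega

include I

theorem id_lt (a b c' d x : V) : idf (c a) (c b) (c c') (c d) (c x) (sg e a b c' d)
    (ta e a b c' d x) < ns (sig (c a) (c b) (c c') (c d) (sg e a b c' d)) := by
  rw [sg_b4, ta_b6]
  exact I.ilt _ (hc _) _ (hc _) _ (hc _) _ (hc _) _ (hc _) _ (he.le1 _ _ _) _ (he.le1 _ _ _)
    _ (he.le1 _ _ _) _ (he.le1 _ _ _) _ (he.le1 _ _ _) _ (he.le1 _ _ _) _ (he.le1 _ _ _)
    _ (he.le1 _ _ _) _ (he.le1 _ _ _) _ (he.le1 _ _ _)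

theorem id_uf (a b c' d x : V) : uf (sig (c a) (c b) (c c') (c d) (sg e a b c' d))
    (idf (c a) (c b) (c c') (c d) (c x) (sg e a b c' d) (ta e a b c' d x)) = c x := by
  rw [sg_b4, ta_b6]
  exact I.iuf _ (hc _) _ (hc _) _ (hc _) _ (hc _) _ (hc _) _ (he.le1 _ _ _) _ (he.le1 _ _ _)
    _ (he.le1 _ _ _) _ (he.le1 _ _ _) _ (he.le1 _ _ _) _ (he.le1 _ _ _) _ (he.le1 _ _ _)
    _ (he.le1 _ _ _) _ (he.le1 _ _ _) _ (he.le1 _ _ _)

theorem sig_lt (a b c' d : V) : sig (c a) (c b) (c c') (c d) (sg e a b c' d) < 31 := by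
  rw [sg_b4]
  exact I.slt _ (hc _) _ (hc _) _ (hc _) _ (hc _) _ (he.le1 _ _ _) _ (he.le1 _ _ _)
    _ (he.le1 _ _ _) _ (he.le1 _ _ _)

theorem sig_1 (a b c' d : V) : sig (c b) (c a) (c c') (c d) (sg e b a c' d) =
    sig (c a) (c b) (c c') (c d) (sg e a b c' d) := by
  rw [sg_b4, sg_b4, he.s12 b a c', he.s12 b a d]
  exact I.s1 _ (hc _) _ (hc _) _ (hc _) _ (hc _) _ (he.le1 _ _ _) _ (he.le1 _ _ _)
    _ (he.le1 _ _ _) _ (he.le1 _ _ _)

theorem sig_2 (a b c' d : V) : sig (c a) (c c') (c b) (c d) (sg e a c' b d) =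
    sig (c a) (c b) (c c') (c d) (sg e a b c' d) := by
  rw [sg_b4, sg_b4, he.s23 a c' b, he.s12 c' b d]
  exact I.s2 _ (hc _) _ (hc _) _ (hc _) _ (hc _) _ (he.le1 _ _ _) _ (he.le1 _ _ _)
    _ (he.le1 _ _ _) _ (he.le1 _ _ _)

theorem sig_3 (a b c' d : V) : sig (c a) (c b) (c d) (c c') (sg e a b d c') =
    sig (c a) (c b) (c c') (c d) (sg e a b c' d) := by
  rw [sg_b4, sg_b4, he.s23 a d c', he.s23 b d c']
  exact I.s3 _ (hc _) _ (hc _) _ (hc _) _ (hc _) _ (he.le1 _ _ _) _ (he.le1 _ _ _)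
    _ (he.le1 _ _ _) _ (he.le1 _ _ _)

theorem id_1 (a b c' d x : V) :
    idf (c b) (c a) (c c') (c d) (c x) (sg e b a c' d) (ta e b a c' d x) =
    idf (c a) (c b) (c c') (c d) (c x) (sg e a b c' d) (ta e a b c' d x) := by
  rw [sg_b4, ta_b6, sg_b4, ta_b6, he.s12 b a c', he.s12 b a d, he.s12 b a x]
  exact I.i1 _ (hc _) _ (hc _) _ (hc _) _ (hc _) _ (hc _) _ (he.le1 _ _ _) _ (he.le1 _ _ _)
    _ (he.le1 _ _ _) _ (he.le1 _ _ _) _ (he.le1 _ _ _) _ (he.le1 _ _ _) _ (he.le1 _ _ _)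
    _ (he.le1 _ _ _) _ (he.le1 _ _ _) _ (he.le1 _ _ _)

theorem id_2 (a b c' d x : V) :
    idf (c a) (c c') (c b) (c d) (c x) (sg e a c' b d) (ta e a c' b d x) =
    idf (c a) (c b) (c c') (c d) (c x) (sg e a b c' d) (ta e a b c' d x) := by
  rw [sg_b4, ta_b6, sg_b4, ta_b6, he.s23 a c' b, he.s12 c' b d, he.s12 c' b x]
  exact I.i2 _ (hc _) _ (hc _) _ (hc _) _ (hc _) _ (hc _) _ (he.le1 _ _ _) _ (he.le1 _ _ _)
    _ (he.le1 _ _ _) _ (he.le1 _ _ _) _ (he.le1 _ _ _) _ (he.le1 _ _ _) _ (he.le1 _ _ _)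
    _ (he.le1 _ _ _) _ (he.le1 _ _ _) _ (he.le1 _ _ _)

theorem id_3 (a b c' d x : V) :
    idf (c a) (c b) (c d) (c c') (c x) (sg e a b d c') (ta e a b d c' x) =
    idf (c a) (c b) (c c') (c d) (c x) (sg e a b c' d) (ta e a b c' d x) := by
  rw [sg_b4, ta_b6, sg_b4, ta_b6, he.s23 a d c', he.s23 b d c', he.s12 d c' x]
  exact I.i3 _ (hc _) _ (hc _) _ (hc _) _ (hc _) _ (hc _) _ (he.le1 _ _ _) _ (he.le1 _ _ _)
    _ (he.le1 _ _ _) _ (he.le1 _ _ _) _ (he.le1 _ _ _) _ (he.le1 _ _ _) _ (he.le1 _ _ _)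
    _ (he.le1 _ _ _) _ (he.le1 _ _ _) _ (he.le1 _ _ _)

theorem ip_lt (a b x y : V) : ip (c a) (c b) (cp e a b x y (c x) (c y)) <
    n2 (Nat.add (c a) (c b)) := by
  rw [cp_b6]
  exact I.plt _ (hc _) _ (hc _) _ (hc _) _ (hc _) _ (he.le1 _ _ _) _ (he.le1 _ _ _)
    _ (he.le1 _ _ _) _ (he.le1 _ _ _)

theorem ip_1 (a b x y : V) : ip (c b) (c a) (cp e b a x y (c x) (c y)) =
    ip (c a) (c b) (cp e a b x y (c x) (c y)) := by
  rw [cp_b6, cp_b6, he.s12 b a x, he.s12 b a y]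
  exact I.p1 _ (hc _) _ (hc _) _ (hc _) _ (hc _) _ (he.le1 _ _ _) _ (he.le1 _ _ _)
    _ (he.le1 _ _ _) _ (he.le1 _ _ _)

theorem ip_2 (a b x y : V) : ip (c a) (c b) (cp e a b y x (c y) (c x)) =
    ip (c a) (c b) (cp e a b x y (c x) (c y)) := by
  rw [cp_b6, cp_b6, he.s23 a y x, he.s23 b y x]
  exact I.p2 _ (hc _) _ (hc _) _ (hc _) _ (hc _) _ (he.le1 _ _ _) _ (he.le1 _ _ _)
    _ (he.le1 _ _ _) _ (he.le1 _ _ _)

variable {TG TP : ℕ → ℕ → ℕ → ℕ} {TQ : ℕ → ℕ → ℕ} {zz : ℕ → ℤ} {oG oP oQ W : ℤ} {tau mu : ℕ → ℤ}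
  (C : CertOk ns uf n2 TG TP TQ zz oG oP oQ W tau mu)
include C

theorem red_G (a b c' d x y : V) : sel6 (phG e c sig idf TG) a b c' d x y =
    48 * s15 (phG e c sig idf TG) a b c' d x y := by
  obtain ⟨K, f, H, hG⟩ := C.hG
  have hsym : ∀ s < 31, ∀ i < ns s, ∀ j < ns s, TG s i j = TG s j i := by
    intro s hs i hi j hj
    have h1 := hG s hs i hi j hj
    have h2 := hG s hs j hj i hi
    have h3 : ∑ k ∈ range K, f s i k * f s j k = ∑ k ∈ range K, f s j k * f s i k :=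
      sum_congr rfl fun k _ => mul_comm _ _
    have h4 : (TG s i j : ℤ) = TG s j i := by rw [h1, h2, h3]; ring
    exact_mod_cast h4
  refine sel6_G _ ?_ ?_ ?_ ?_ a b c' d x y
  · intro x y a b c' d
    simp only [phG, vG]
    exact hsym _ (sig_lt he hc I _ _ _ _) _ (id_lt he hc I _ _ _ _ _) _ (id_lt he hc I _ _ _ _ _)
  · intro x y a b c' d
    simp only [phG, vG]
    rw [sig_1 he hc I a b c' d, id_1 he hc I a b c' d x, id_1 he hc I a b c' d y]
  · intro x y a b c' d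
    simp only [phG, vG]
    rw [sig_2 he hc I a b c' d, id_2 he hc I a b c' d x, id_2 he hc I a b c' d y]
  · intro x y a b c' d
    simp only [phG, vG]
    rw [sig_3 he hc I a b c' d, id_3 he hc I a b c' d x, id_3 he hc I a b c' d y]

theorem red_P (a b c' d x y : V) : sel6 (phP e c ip TP) a b c' d x y =
    16 * s45 (phP e c ip TP) a b c' d x y := by
  obtain ⟨K, f, hP⟩ := C.hP
  have hsym : ∀ r < 3, ∀ i < n2 r, ∀ j < n2 r, TP r i j = TP r j i := by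
    intro s hs i hi j hj
    have h1 := hP s hs i hi j hj
    have h2 := hP s hs j hj i hi
    have h3 : ∑ k ∈ range K, f s i k * f s j k = ∑ k ∈ range K, f s j k * f s i k :=
      sum_congr rfl fun k _ => mul_comm _ _
    have h4 : (TP s i j : ℤ) = TP s j i := by rw [h1, h2, h3]
    exact_mod_cast h4
  refine sel6_P _ ?_ ?_ ?_ ?_ a b c' d x y
  · intro a b x y z w
    simp only [phP, vP]
    rw [ip_1 he hc I a b x y, ip_1 he hc I a b z w]
    congr 1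
    exact Nat.add_comm _ _
  · intro a b x y z w
    simp only [phP, vP]
    rw [ip_2 he hc I a b x y]
  · intro a b x y z w
    simp only [phP, vP]
    rw [ip_2 he hc I a b z w]
  · intro a b x y z w
    simp only [phP, vP]
    have h1 := hc a
    have h2 := hc b
    exact hsym _ (by simp only [Nat.add_eq]; omega) _ (ip_lt he hc I _ _ _ _) _
      (ip_lt he hc I _ _ _ _)


omit I in
theorem red_Q (a b c' d x y : V) : sel6 (phQ e c TQ) a b c' d x y =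
    72 * s10 (phQ e c TQ) a b c' d x y := by
  obtain ⟨K, f, hQ⟩ := C.hQ
  have hsym : ∀ s < 8, ∀ t < 8, TQ s t = TQ t s := by
    intro s hs t ht
    have h1 := hQ s hs t ht
    have h2 := hQ t ht s hs
    have h3 : ∑ k ∈ range K, f s k * f t k = ∑ k ∈ range K, f t k * f s k :=
      sum_congr rfl fun k _ => mul_comm _ _
    have h4 : (TQ s t : ℤ) = TQ t s := by rw [h1, h2, h3]; ring
    exact_mod_cast h4
  have k1 : ∀ a b x : V, st e b a x (c b) (c a) (c x) = st e a b x (c a) (c b) (c x) := by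
    intro a b x
    simp only [st, Nat.add_eq, Nat.mul_eq]
    rw [he.s12 b a x]; omega
  have k2 : ∀ a b x : V, st e a x b (c a) (c x) (c b) = st e a b x (c a) (c b) (c x) := by
    intro a b x
    simp only [st, Nat.add_eq, Nat.mul_eq]
    rw [he.s23 a x b]; omega
  refine sel6_Q _ ?_ ?_ ?_ ?_ ?_ a b c' d x y
  · intro a b d x y z
    simp only [phQ, vQ]
    rw [k1 a b d]
  · intro a b d x y z
    simp only [phQ, vQ]
    rw [k2 a b d]
  · intro a b d x y z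
    simp only [phQ, vQ]
    rw [k1 x y z]
  · intro a b d x y z
    simp only [phQ, vQ]
    rw [k2 x y z]
  · intro a b d x y z
    simp only [phQ, vQ]
    exact hsym _ (st_lt he hc _ _ _) _ (st_lt he hc _ _ _)

omit he hc I C in
theorem val_eq (w : Fin 6 → V) (m : ℕ)
    (h : ∀ i j k : Fin 6, e (w i) (w j) (w k) = pe m i.val j.val k.val) :
    48 * s15 (phG e c sig idf TG) (w 0) (w 1) (w 2) (w 3) (w 4) (w 5) +
      16 * s45 (phP e c ip TP) (w 0) (w 1) (w 2) (w 3) (w 4) (w 5) +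
      72 * s10 (phQ e c TQ) (w 0) (w 1) (w 2) (w 3) (w 4) (w 5) =
    val sig idf ip TG TP TQ m (c (w 0)) (c (w 1)) (c (w 2)) (c (w 3)) (c (w 4)) (c (w 5)) := by
  have h2 : (fun i j k : Fin 6 => e (w i) (w j) (w k)) =
      fun i j k : Fin 6 => pe m i.val j.val k.val := by
    funext i j k
    exact h i j k
  have g1 : s15 (phG e c sig idf TG) (w 0) (w 1) (w 2) (w 3) (w 4) (w 5) =
      t15 (vG (fun i j k : Fin 6 => e (w i) (w j) (w k)) sig idf TG) 0 1 2 3 4 5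
        (c (w 0)) (c (w 1)) (c (w 2)) (c (w 3)) (c (w 4)) (c (w 5)) := rfl
  have g2 : s45 (phP e c ip TP) (w 0) (w 1) (w 2) (w 3) (w 4) (w 5) =
      t45 (vP (fun i j k : Fin 6 => e (w i) (w j) (w k)) ip TP) 0 1 2 3 4 5
        (c (w 0)) (c (w 1)) (c (w 2)) (c (w 3)) (c (w 4)) (c (w 5)) := rfl
  have g3 : s10 (phQ e c TQ) (w 0) (w 1) (w 2) (w 3) (w 4) (w 5) =
      t10 (vQ (fun i j k : Fin 6 => e (w i) (w j) (w k)) TQ) 0 1 2 3 4 5
        (c (w 0)) (c (w 1)) (c (w 2)) (c (w 3)) (c (w 4)) (c (w 5)) := rfl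
  rw [g1, g2, g3, h2]
  rw [val, Nat.add_eq, Nat.add_eq, Nat.mul_eq, Nat.mul_eq, Nat.mul_eq, ← Nat.add_assoc]
  rfl

omit he hc I C in
theorem sel6_add (f g : V → V → V → V → V → V → ℕ) (a b c' d x y : V) :
    sel6 (fun p q r s t u => f p q r s t u + g p q r s t u) a b c' d x y =
      sel6 f a b c' d x y + sel6 g a b c' d x y := by
  have a2 : ∀ (f g : V → V → ℕ) (x y : V), sel2 (fun p q => f p q + g p q) x y =
      sel2 f x y + sel2 g x y := by
    intro f g x y; simp only [sel2, Nat.add_eq]; omega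
  have a3 : ∀ (f g : V → V → V → ℕ) (x y z : V), sel3 (fun p q r => f p q r + g p q r) x y z =
      sel3 f x y z + sel3 g x y z := by
    intro f g x y z
    simp only [sel3, Nat.add_eq, a2 (f x) (g x), a2 (f y) (g y), a2 (f z) (g z)]; omega
  have a4 : ∀ (f g : V → V → V → V → ℕ) (x y z u : V),
      sel4 (fun p q r s => f p q r s + g p q r s) x y z u =
      sel4 f x y z u + sel4 g x y z u := by
    intro f g x y z u
    simp only [sel4, Nat.add_eq, a3 (f x) (g x), a3 (f y) (g y), a3 (f z) (g z), a3 (f u) (g u)]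
    omega
  have a5 : ∀ (f g : V → V → V → V → V → ℕ) (x y z u v : V),
      sel5 (fun p q r s t => f p q r s t + g p q r s t) x y z u v =
      sel5 f x y z u v + sel5 g x y z u v := by
    intro f g x y z u v
    simp only [sel5, Nat.add_eq, a4 (f x) (g x), a4 (f y) (g y), a4 (f z) (g z), a4 (f u) (g u),
      a4 (f v) (g v)]
    omega
  simp only [sel6, Nat.add_eq, a5 (f a) (g a), a5 (f b) (g b), a5 (f c') (g c'), a5 (f d) (g d),
    a5 (f x) (g x), a5 (f y) (g y)]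
  omega

/-- the sum over orderings is at most the maximum over the representatives -/
theorem sel_le (B : ℕ) (bad : ℕ → ℕ → ℕ → ℕ → ℕ → ℕ → ℕ → Bool)
    (hchk : ∀ h < 2136, ∀ c0 ≤ 1, ∀ c1 ≤ 1, ∀ c2 ≤ 1, ∀ c3 ≤ 1, ∀ c4 ≤ 1, ∀ c5 ≤ 1,
      (bad (rep6 h) c0 c1 c2 c3 c4 c5 ||
        Nat.ble (val sig idf ip TG TP TQ (rep6 h) c0 c1 c2 c3 c4 c5) B) = true)
    (hbad : ∀ (v : Fin 6 → V) (m : ℕ),
      (∀ i j k : Fin 6, e (v i) (v j) (v k) = pe m i.val j.val k.val) →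
      bad m (c (v 0)) (c (v 1)) (c (v 2)) (c (v 3)) (c (v 4)) (c (v 5)) = false)
    (v : Fin 6 → V) :
    sel6 (phi6 e c sig idf ip TG TP TQ) (v 0) (v 1) (v 2) (v 3) (v 4) (v 5) ≤ B := by
  obtain ⟨π, hπ, h, hh, hm⟩ := iso_red (pat_comp he v)
  have h1 := sel6_perm (phi6 e c sig idf ip TG TP TQ) v π hπ
  have h3 := hbad (fun i => v (π i)) (rep6 h) hm
  have h4 := hchk h hh _ (hc (v (π 0))) _ (hc (v (π 1))) _ (hc (v (π 2))) _ (hc (v (π 3)))
    _ (hc (v (π 4))) _ (hc (v (π 5)))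
  rw [h3, Bool.false_or] at h4
  have h5 := Nat.le_of_ble_eq_true h4
  have h6 := val_eq (c := c) (sig := sig) (idf := idf) (ip := ip) (TG := TG) (TP := TP) (TQ := TQ)
    (fun i => v (π i)) (rep6 h) hm
  rw [← h1]
  have h7 : sel6 (phi6 e c sig idf ip TG TP TQ) (v (π 0)) (v (π 1)) (v (π 2)) (v (π 3))
      (v (π 4)) (v (π 5)) = 48 * s15 (phG e c sig idf TG) (v (π 0)) (v (π 1)) (v (π 2)) (v (π 3))
        (v (π 4)) (v (π 5)) +
      16 * s45 (phP e c ip TP) (v (π 0)) (v (π 1)) (v (π 2)) (v (π 3)) (v (π 4)) (v (π 5)) +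
      72 * s10 (phQ e c TQ) (v (π 0)) (v (π 1)) (v (π 2)) (v (π 3)) (v (π 4)) (v (π 5)) := by
    rw [← red_G he hc I C, ← red_P he hc I C, ← red_Q he hc C]
    rw [show phi6 e c sig idf ip TG TP TQ = fun p q r s t u =>
      (fun p q r s t u => phG e c sig idf TG p q r s t u + phP e c ip TP p q r s t u) p q r s t u
        + phQ e c TQ p q r s t u from rfl, sel6_add, sel6_add]
  rw [h7]
  exact h6.le.trans h5

end

end Pool.Agent.T9h12.C6
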