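import Pool.Agent.H449R2.Fl.Bound

/-! Sums over orderings of functions with symmetries. -/

set_option autoImplicit false
set_option maxRecDepth 100000
set_option maxHeartbeats 4000000
open Finset

namespace Pool.Agent.T9h12.C6
open Pool.Agent.H449R2.Fl

section
variable {α : Type}

theorem sel2_sym (f : α → α → ℕ) (h1 : ∀ a b, f b a = f a b) (a b : α) :
    sel2 f a b = 2 * f a b := by
  simp only [sel2, Nat.add_eq, h1 a b]; ring

theorem sel3_sym (f : α → α → α → ℕ) (h1 : ∀ a b c, f b a c = f a b c)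
    (h2 : ∀ a b c, f a c b = f a b c) (a b c : α) : sel3 f a b c = 6 * f a b c := by
  simp only [sel3, Nat.add_eq]
  rw [sel2_sym _ (fun x y => h2 a x y), sel2_sym _ (fun x y => h2 b x y),
    sel2_sym _ (fun x y => h2 c x y), h1 a b c, h1 a c b, h2 a b c]
  ring

theorem sel4_sym (f : α → α → α → α → ℕ) (h1 : ∀ a b c d, f b a c d = f a b c d)
    (h2 : ∀ a b c d, f a c b d = f a b c d) (h3 : ∀ a b c d, f a b d c = f a b c d)
    (a b c d : α) : sel4 f a b c d = 24 * f a b c d := by
  simp only [sel4, Nat.add_eq]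
  rw [sel3_sym (f a) (fun x y z => h2 a x y z) (fun x y z => h3 a x y z),
    sel3_sym (f b) (fun x y z => h2 b x y z) (fun x y z => h3 b x y z),
    sel3_sym (f c) (fun x y z => h2 c x y z) (fun x y z => h3 c x y z),
    sel3_sym (f d) (fun x y z => h2 d x y z) (fun x y z => h3 d x y z),
    h1 a b c d, h1 a c b d, h2 a b c d, h1 a d b c, h2 a b d c, h3 a b c d]
  ring

/-- the fifteen terms of a function of two plus four elements -/
def s15 (g : α → α → α → α → α → α → ℕ) (a b c d x y : α) : ℕ :=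
  Nat.add (g x y a b c d) (Nat.add (g d y a b c x) (Nat.add (g d x a b c y)
  (Nat.add (g c y a b d x) (Nat.add (g c x a b d y) (Nat.add (g c d a b x y)
  (Nat.add (g b y a c d x) (Nat.add (g b x a c d y) (Nat.add (g b d a c x y)
  (Nat.add (g b c a d x y) (Nat.add (g a y b c d x) (Nat.add (g a x b c d y)
  (Nat.add (g a d b c x y) (Nat.add (g a c b d x y) (g a b c d x y))))))))))))))

theorem sel6_G (g : α → α → α → α → α → α → ℕ) (h0 : ∀ x y a b c d, g y x a b c d = g x y a b c d)
    (h1 : ∀ x y a b c d, g x y b a c d = g x y a b c d)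
    (h2 : ∀ x y a b c d, g x y a c b d = g x y a b c d)
    (h3 : ∀ x y a b c d, g x y a b d c = g x y a b c d) (a b c d x y : α) :
    sel6 g a b c d x y = 48 * s15 g a b c d x y := by
  have h4 : ∀ x y : α, ∀ a b c d : α, sel4 (g x y) a b c d = 24 * g x y a b c d :=
    fun x y => sel4_sym (g x y) (h1 x y) (h2 x y) (h3 x y)
  simp only [sel6, sel5, Nat.add_eq, h4, s15]
  rw [h0 a b, h0 a c, h0 a d, h0 a x, h0 a y, h0 b c, h0 b d, h0 b x, h0 b y, h0 c d, h0 c x,
    h0 c y, h0 d x, h0 d y, h0 x y]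
  ring

/-- the three partitions of four elements into two pairs -/
def s3 (g : α → α → α → α → ℕ) (x y z w : α) : ℕ :=
  Nat.add (g x y z w) (Nat.add (g x z y w) (g x w y z))

theorem sel4_P (g : α → α → α → α → ℕ) (h1 : ∀ x y z w, g y x z w = g x y z w)
    (h2 : ∀ x y z w, g x y w z = g x y z w) (h3 : ∀ x y z w, g z w x y = g x y z w)
    (x y z w : α) : sel4 g x y z w = 8 * s3 g x y z w := by
  simp only [sel4, sel3, Nat.add_eq, s3]
  rw [sel2_sym _ (fun u v => h2 x y u v), sel2_sym _ (fun u v => h2 x z u v),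
    sel2_sym _ (fun u v => h2 x w u v), sel2_sym _ (fun u v => h2 y x u v),
    sel2_sym _ (fun u v => h2 y z u v), sel2_sym _ (fun u v => h2 y w u v),
    sel2_sym _ (fun u v => h2 z x u v), sel2_sym _ (fun u v => h2 z y u v),
    sel2_sym _ (fun u v => h2 z w u v), sel2_sym _ (fun u v => h2 w x u v),
    sel2_sym _ (fun u v => h2 w y u v), sel2_sym _ (fun u v => h2 w z u v),
    h1 x y z w, h3 x w y z, h3 x z y w, h1 x z y w, h1 y z x w, h3 x w y z, h3 x y z w, h1 x w y z,
    h1 y w x z, h3 x z y w, h1 z w x y, h3 x y z w]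
  ring

/-- the 45 terms of a function of two plus two plus two elements -/
def s45 (g : α → α → α → α → α → α → ℕ) (a b c d x y : α) : ℕ :=
  Nat.add (s3 (g x y) a b c d) (Nat.add (s3 (g d y) a b c x) (Nat.add (s3 (g d x) a b c y)
  (Nat.add (s3 (g c y) a b d x) (Nat.add (s3 (g c x) a b d y) (Nat.add (s3 (g c d) a b x y)
  (Nat.add (s3 (g b y) a c d x) (Nat.add (s3 (g b x) a c d y) (Nat.add (s3 (g b d) a c x y)
  (Nat.add (s3 (g b c) a d x y) (Nat.add (s3 (g a y) b c d x) (Nat.add (s3 (g a x) b c d y)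
  (Nat.add (s3 (g a d) b c x y) (Nat.add (s3 (g a c) b d x y) (s3 (g a b) c d x y))))))))))))))

theorem sel6_P (g : α → α → α → α → α → α → ℕ) (h0 : ∀ x y a b c d, g y x a b c d = g x y a b c d)
    (h1 : ∀ x y a b c d, g x y b a c d = g x y a b c d)
    (h2 : ∀ x y a b c d, g x y a b d c = g x y a b c d)
    (h3 : ∀ x y a b c d, g x y c d a b = g x y a b c d) (a b c d x y : α) :
    sel6 g a b c d x y = 16 * s45 g a b c d x y := by
  have h4 : ∀ x y : α, ∀ a b c d : α, sel4 (g x y) a b c d = 8 * s3 (g x y) a b c d :=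
    fun x y => sel4_P (g x y) (h1 x y) (h2 x y) (h3 x y)
  have h5 : ∀ x y : α, g y x = g x y := fun x y => by
    funext a b c d; exact h0 x y a b c d
  simp only [sel6, sel5, Nat.add_eq, h4, s45]
  rw [h5 a b, h5 a c, h5 a d, h5 a x, h5 a y, h5 b c, h5 b d, h5 b x, h5 b y, h5 c d, h5 c x,
    h5 c y, h5 d x, h5 d y, h5 x y]
  ring

/-- the ten terms of a function of three plus three elements -/
def s10 (g : α → α → α → α → α → α → ℕ) (a b c d x y : α) : ℕ :=
  Nat.add (g a b c d x y) (Nat.add (g a b d c x y) (Nat.add (g a b x c d y)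
  (Nat.add (g a b y c d x) (Nat.add (g a c d b x y) (Nat.add (g a c x b d y)
  (Nat.add (g a c y b d x) (Nat.add (g a d x b c y) (Nat.add (g a d y b c x)
  (g a x y b c d)))))))))

theorem sel6_Q (g : α → α → α → α → α → α → ℕ) (h0 : ∀ a b c x y z, g b a c x y z = g a b c x y z)
    (h1 : ∀ a b c x y z, g a c b x y z = g a b c x y z)
    (h2 : ∀ a b c x y z, g a b c y x z = g a b c x y z)
    (h3 : ∀ a b c x y z, g a b c x z y = g a b c x y z)
    (h4 : ∀ a b c x y z, g x y z a b c = g a b c x y z) (a b c d x y : α) :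
    sel6 g a b c d x y = 72 * s10 g a b c d x y := by
  have k3 : ∀ a b c x y z : α, sel3 (g a b c) x y z = 6 * g a b c x y z :=
    fun a b c => sel3_sym (g a b c) (h2 a b c) (h3 a b c)
  have k2 : ∀ a b c : α, g b a c = g a b c := fun a b c => by
    funext x y z; exact h0 a b c x y z
  have k1 : ∀ a b c : α, g a c b = g a b c := fun a b c => by
    funext x y z; exact h1 a b c x y z
  have hp : ∀ a b c x y z : α, g a b c x y z + g a c b x y z + g b a c x y z + g b c a x y z +
      g c a b x y z + g c b a x y z = 6 * g a b c x y z := by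
    intro a b c x y z
    rw [k1 a b c, k2 a b c, k1 b a c, k2 a b c, k2 a c b, k1 a b c, k1 c a b, k2 a c b, k1 a b c]
    ring
  simp only [sel6, sel5, sel4, Nat.add_eq, k3, s10]
  have e1 := hp a b c d x y
  have e2 := hp a b d c x y
  have e3 := hp a b x c d y
  have e4 := hp a b y c d x
  have e5 := hp a c d b x y
  have e6 := hp a c x b d y
  have e7 := hp a c y b d x
  have e8 := hp a d x b c y
  have e9 := hp a d y b c x
  have e10 := hp a x y b c d
  have f1 := (hp d x y a b c).trans (congrArg (6 * ·) (h4 a b c d x y))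
  have f2 := (hp c x y a b d).trans (congrArg (6 * ·) (h4 a b d c x y))
  have f3 := (hp c d y a b x).trans (congrArg (6 * ·) (h4 a b x c d y))
  have f4 := (hp c d x a b y).trans (congrArg (6 * ·) (h4 a b y c d x))
  have f5 := (hp b x y a c d).trans (congrArg (6 * ·) (h4 a c d b x y))
  have f6 := (hp b d y a c x).trans (congrArg (6 * ·) (h4 a c x b d y))
  have f7 := (hp b d x a c y).trans (congrArg (6 * ·) (h4 a c y b d x))
  have f8 := (hp b c y a d x).trans (congrArg (6 * ·) (h4 a d x b c y))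
  have f9 := (hp b c x a d y).trans (congrArg (6 * ·) (h4 a d y b c x))
  have f10 := (hp b c d a x y).trans (congrArg (6 * ·) (h4 a x y b c d))
  beta_reduce at f1 f2 f3 f4 f5 f6 f7 f8 f9 f10
  linarith

end

end Pool.Agent.T9h12.C6
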